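import Pool.Agent.H87.SM.Defs

/-! SM-APX (helper86): near-minimisers of the logarithmic energy with `16 N³` bits. -/

set_option autoImplicit false

namespace Pool.Agent.H87.SM

namespace APXh

lemma bits (N : ℕ) (hN : 2 ≤ N) : 8 * (N : ℝ) ^ 2 * (8 / 2 ^ LL N) ≤ 1 / 4 ^ (N ^ 3) := by
  have h1 : N < 2 ^ N := Nat.lt_two_pow_self
  have hN3 : N ≤ N ^ 3 := Nat.le_self_pow (by norm_num) N
  have h2 : N ≤ 2 ^ (N ^ 3) := h1.le.trans (Nat.pow_le_pow_right (by norm_num) hN3)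
  have h3 : (N : ℝ) ≤ 2 ^ (N ^ 3) := by exact_mod_cast h2
  have h4 : (N : ℝ) ^ 2 ≤ (2 ^ (N ^ 3)) ^ 2 := pow_le_pow_left₀ (Nat.cast_nonneg _) h3 2
  have h5 : (1 : ℕ) ≤ N ^ 3 := Nat.one_le_pow _ _ (by omega)
  have h6 : (64 : ℝ) ≤ 2 ^ (6 * N ^ 3) := by
    calc (64 : ℝ) = 2 ^ 6 := by norm_num
      _ ≤ _ := pow_le_pow_right₀ (by norm_num) (by omega)
  have h7 : (64 : ℝ) * N ^ 2 * 4 ^ (N ^ 3) ≤ 2 ^ LL N := by
    calc (64 : ℝ) * N ^ 2 * 4 ^ (N ^ 3) ≤ 2 ^ (6 * N ^ 3) * (2 ^ (N ^ 3)) ^ 2 * 4 ^ (N ^ 3) := by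
          gcongr
      _ = 2 ^ (10 * N ^ 3) := by
          rw [show (4 : ℝ) = 2 ^ 2 by norm_num, ← pow_mul, ← pow_mul, ← pow_add, ← pow_add]
          congr 1
          ring
      _ ≤ 2 ^ LL N := pow_le_pow_right₀ (by norm_num) (by unfold LL; omega)
  rw [le_div_iff₀ (by positivity), ← mul_div_assoc, div_mul_eq_mul_div, div_le_one (by positivity)]
  calc 8 * (N : ℝ) ^ 2 * 8 * 4 ^ (N ^ 3) = 64 * N ^ 2 * 4 ^ (N ^ 3) := by ring
    _ ≤ _ := h7

lemma close (hG : S_GEO) {u v u' v' e D : ℝ} (he : e = 1 ∨ e = -1) (hD : 0 < D)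
    (hu : |u' - u| ≤ 2 / D) (hv : |v' - v| ≤ 2 / D) : ‖pt u' v' e - pt u v e‖ ≤ 8 / D := by
  have h1 := hG.2.1 u' v' u v e he
  have h2 : (u' - u) ^ 2 ≤ (2 / D) ^ 2 := sq_le_sq' (by linarith [abs_le.mp hu |>.1]) (abs_le.mp hu).2
  have h3 : (v' - v) ^ 2 ≤ (2 / D) ^ 2 := sq_le_sq' (by linarith [abs_le.mp hv |>.1]) (abs_le.mp hv).2
  have h4 : 1 ≤ (1 + u' ^ 2 + v' ^ 2) * (1 + u ^ 2 + v ^ 2) := by
    nlinarith [sq_nonneg u, sq_nonneg v, sq_nonneg u', sq_nonneg v',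
      mul_nonneg (add_nonneg (sq_nonneg u') (sq_nonneg v')) (add_nonneg (sq_nonneg u) (sq_nonneg v))]
  have h5 : ‖pt u' v' e - pt u v e‖ ^ 2 ≤ (8 / D) ^ 2 := by
    rw [h1, div_le_iff₀ (by linarith)]
    have h6 : (8 / D) ^ 2 = 16 * (2 / D) ^ 2 := by ring
    rw [h6]
    have h7 : 0 ≤ (2 / D) ^ 2 := sq_nonneg _
    nlinarith
  exact le_of_sq_le_sq h5 (by positivity)

end APXh

open APXh in
theorem apx : S_APX := by
  intro hG hU hS hP hR N hN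
  classical
  set L := LL N with hL
  -- the energies
  set A : Set ℝ := {x | ∃ ω : Fin N → E3, Conf ω ∧ energy ω = x} with hA
  obtain ⟨ω₀, h0, h0'⟩ := hU hG N (by omega)
  have hne : A.Nonempty := ⟨_, ω₀, h0, rfl⟩
  have hbd : BddBelow A := by
    refine ⟨-(N : ℝ) ^ 2, ?_⟩
    rintro x ⟨ω, hω, rfl⟩
    exact hS.1 N ω hω
  obtain ⟨x, ⟨ω, hω, rfl⟩, hx⟩ := exists_lt_of_csInf_lt hne (show sInf A < sInf A + 1 / 2 by linarith)
  have hinf : ∀ ω' : Fin N → E3, Conf ω' → sInf A ≤ energy ω' := fun ω' hω' => csInf_le hbd ⟨ω', hω', rfl⟩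
  have hen : energy ω ≤ (N : ℝ) ^ 3 + 1 := by
    have := hinf ω₀ h0
    linarith
  have hsep := hS.2 N ω hN hω hen
  -- parameters and rounding
  choose u v e hu hv he hpt using fun i => hG.2.2 (ω i) (hω.2 i)
  choose a ha ha' using fun i => hR (u i) L (hu i)
  choose b hb hb' using fun i => hR (v i) L (hv i)
  have hsign : ∀ i, (if decide (e i = 1) = true then (1 : ℝ) else -1) = e i := by
    intro i
    rcases he i with h | h
    · rw [h]; simp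
    · rw [h]
      norm_num
  have hpos : (0 : ℝ) < 2 ^ L := by positivity
  have hmain := hP N ω (fun i => pt (2 * a i / 2 ^ L - 1) (2 * b i / 2 ^ L - 1)
    (if decide (e i = 1) = true then 1 else -1)) (1 / 4 ^ (N ^ 3)) (8 / 2 ^ L) (by omega) hω (by positivity)
    hsep (bits N hN) (fun i => by
      show ‖pt (2 * a i / 2 ^ L - 1) (2 * b i / 2 ^ L - 1)
        (if decide (e i = 1) = true then 1 else -1) - ω i‖ ≤ _
      rw [hsign i]
      rw [← hpt i]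
      exact close hG (he i) hpos (ha' i) (hb' i)) (fun i => by
      show ‖pt (2 * a i / 2 ^ L - 1) (2 * b i / 2 ^ L - 1)
        (if decide (e i = 1) = true then 1 else -1)‖ = 1
      rw [hsign i]
      exact hG.1 _ _ _ (he i))
  refine ⟨a, b, fun i => decide (e i = 1), ha, hb, hmain.1, fun ω' hω' => ?_⟩
  have h1 := hinf ω' hω'
  have h2 := hmain.2
  linarith

end Pool.Agent.H87.SM
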