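import Pool.Agent.H87.SM.CDefs

/-!
# SMC-BIT (helper29): the bits of the digits are primitive recursive
-/

set_option autoImplicit false

namespace Pool.Agent.H87.SM

theorem c_bit : S_BIT := by
  intro hP hW
  have hpow : Primrec₂ (fun a b : ℕ => a ^ b) := hP.1
  have hLL : Primrec LL := by
    have h : Primrec (fun N : ℕ => 16 * N ^ 3) :=
      Primrec.nat_mul.comp (Primrec.const 16) (hpow.comp Primrec.id (Primrec.const 3))
    exact h
  have h2 : ∀ {f : ℕ × ℕ → ℕ}, Primrec f → Primrec (fun x => 2 ^ f x) := fun hf =>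
    hpow.comp (Primrec.const 2) hf
  have hL : Primrec (fun x : ℕ × ℕ => LL x.1) := hLL.comp Primrec.fst
  have hi : Primrec (fun x : ℕ × ℕ => x.2 / LL x.1) := Primrec.nat_div.comp Primrec.snd hL
  have hd : Primrec (fun x : ℕ × ℕ =>
      WW x.1 / 2 ^ (LL x.1 * (x.2 / LL x.1)) % 2 ^ LL x.1) :=
    Primrec.nat_mod.comp
      (Primrec.nat_div.comp (hW.comp Primrec.fst) (h2 (Primrec.nat_mul.comp hL hi))) (h2 hL)
  have hk : Primrec (fun x : ℕ × ℕ => LL x.1 - 1 - x.2 % LL x.1) :=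
    Primrec.nat_sub.comp (Primrec.nat_sub.comp hL (Primrec.const 1))
      (Primrec.nat_mod.comp Primrec.snd hL)
  have hq : Primrec (fun x : ℕ × ℕ =>
      WW x.1 / 2 ^ (LL x.1 * (x.2 / LL x.1)) % 2 ^ LL x.1 /
        2 ^ (LL x.1 - 1 - x.2 % LL x.1) % 2) :=
    Primrec.nat_mod.comp (Primrec.nat_div.comp hd (h2 hk)) (Primrec.const 2)
  have hdec : PrimrecPred (fun x : ℕ × ℕ =>
      WW x.1 / 2 ^ (LL x.1 * (x.2 / LL x.1)) % 2 ^ LL x.1 /
        2 ^ (LL x.1 - 1 - x.2 % LL x.1) % 2 = 1) :=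
    Primrec.eq.comp hq (Primrec.const 1)
  have h3 : Primrec (fun x : ℕ × ℕ => decide (
      WW x.1 / 2 ^ (LL x.1 * (x.2 / LL x.1)) % 2 ^ LL x.1 /
        2 ^ (LL x.1 - 1 - x.2 % LL x.1) % 2 = 1)) := hdec.decide
  refine h3.of_eq fun x => ?_
  show _ = Nat.testBit (dg x.1 (WW x.1) (x.2 / LL x.1)) (LL x.1 - 1 - x.2 % LL x.1)
  rw [Nat.testBit_eq_decide_div_mod_eq]
  rfl

end Pool.Agent.H87.SM
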