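import Pool.Agent.H87.SM.CDefs

set_option autoImplicit false

namespace Pool.Agent.H87.SM

namespace CCR

/-- numerators of the partial sums -/
def g (β : ℕ → Bool) (n : ℕ) : ℕ := Nat.rec 0 (fun n ih => 4 * ih + cond (β n) 1 0) n

/-- powers of four -/
def r (n : ℕ) : ℕ := Nat.rec 1 (fun _ ih => 4 * ih) n

theorem g_succ (β : ℕ → Bool) (n : ℕ) : g β (n + 1) = 4 * g β n + cond (β n) 1 0 := rfl

theorem r_eq (n : ℕ) : r n = 4 ^ n := by
  induction n with
  | zero => rfl
  | succ n ih =>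
    have : r (n + 1) = 4 * r n := rfl
    rw [this, ih, pow_succ]
    ring

theorem r_prim : Primrec r :=
  Primrec.nat_rec₁ 1 (Primrec.nat_mul.comp (Primrec.const 4) Primrec.snd)

theorem g_prim {β : ℕ → Bool} (hβ : Primrec β) : Primrec (g β) := by
  refine Primrec.nat_rec₁ 0 (Primrec.nat_add.comp (Primrec.nat_mul.comp (Primrec.const 4) Primrec.snd) ?_)
  exact Primrec.cond (hβ.comp Primrec.fst) (Primrec.const 1) (Primrec.const 0)

theorem main {X : ℕ → ℝ} {β : ℕ → Bool} (h : ∀ k, 4 * X k = (if β k then 1 else 0) + X (k + 1))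
    (n : ℕ) : 4 ^ n * X 0 = g β n + X n := by
  induction n with
  | zero => simp [g]
  | succ n ih =>
    rw [g_succ, pow_succ]
    have h1 := h n
    have h2 : (4 : ℝ) ^ n * 4 * X 0 = 4 * (g β n + X n) := by
      rw [← ih]
      ring
    rw [h2]
    push_cast
    have h3 : ((cond (β n) 1 0 : ℕ) : ℝ) = if β n then 1 else 0 := by
      cases β n <;> simp
    rw [h3]
    linarith

end CCR

theorem c_cr : S_CR := by
  intro X β hβ h hX
  refine ⟨CCR.g β, fun _ => 0, CCR.r, (CCR.g_prim hβ).to_comp, Computable.const 0,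
    CCR.r_prim.to_comp, fun n => ?_⟩
  rw [CCR.r_eq]
  refine ⟨by positivity, ?_⟩
  have h1 := CCR.main h n
  have h2 : (0 : ℝ) < 4 ^ n := by positivity
  have h3 : X 0 - ((CCR.g β n : ℝ) - ((0 : ℕ) : ℝ)) / ((4 ^ n : ℕ) : ℝ) = X n / 4 ^ n := by
    push_cast
    rw [eq_div_iff h2.ne']
    field_simp
    linarith
  rw [h3, abs_of_nonneg (div_nonneg (hX n).1 h2.le)]
  calc X n / 4 ^ n ≤ 1 / 4 ^ n := by
        gcongr
        exact (hX n).2.le
    _ ≤ 1 / 2 ^ n := by
        gcongr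
        norm_num

end Pool.Agent.H87.SM
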