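import Pool.Agent.H87.SM.CDefs

set_option autoImplicit false

namespace Pool.Agent.H87.SM

/-- SMC-DIG (helper48) -/
theorem c_dig : S_DIG := by
  intro N K
  induction K with
  | zero =>
    intro v _
    exact ⟨0, by simp, fun i hi => absurd hi (Nat.not_lt_zero i)⟩
  | succ K ih =>
    intro v hv
    obtain ⟨m, hm, hd⟩ := ih (fun i => v (i + 1)) (fun i => hv (i + 1))
    have hv0 := hv 0
    set B := 2 ^ LL N with hB
    have hB0 : 0 < B := by positivity
    refine ⟨v 0 + B * m, ?_, ?_⟩
    · have h1 : 2 ^ ((K + 1) * LL N) = B * 2 ^ (K * LL N) := by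
        rw [hB, ← pow_add]
        congr 1
        ring
      rw [h1]
      calc v 0 + B * m < B + B * m := by omega
        _ = B * (m + 1) := by ring
        _ ≤ B * 2 ^ (K * LL N) := Nat.mul_le_mul_left _ hm
    · intro i hi
      cases i with
      | zero =>
        unfold dg
        rw [← hB, mul_zero, pow_zero, Nat.div_one, Nat.add_mul_mod_self_left,
          Nat.mod_eq_of_lt hv0]
      | succ i =>
        have h2 := hd i (by omega)
        unfold dg at h2 ⊢
        have h3 : 2 ^ (LL N * (i + 1)) = B * 2 ^ (LL N * i) := by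
          rw [hB, ← pow_add]
          congr 1
          ring
        rw [h3, ← Nat.div_div_eq_div_mul, Nat.add_mul_div_left _ _ hB0, Nat.div_eq_of_lt hv0,
          zero_add]
        exact h2

end Pool.Agent.H87.SM
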