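import Pool.Agent.H87.SM.CDefs

/-! SMC-DIS (helper62): the squared distance of two points of the code -/

set_option autoImplicit false

namespace Pool.Agent.H87.SM

namespace CDISx

theorem sd_cast (x y : ℕ) : (sd x y : ℝ) = ((x : ℝ) - y) ^ 2 := by
  unfold sd
  rcases le_total x y with h | h
  · rw [Nat.sub_eq_zero_of_le h]
    push_cast [Nat.cast_sub h]
    ring
  · rw [Nat.sub_eq_zero_of_le h]
    push_cast [Nat.cast_sub h]
    ring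

theorem qq_cast (N m i : ℕ) : (qq (N, m) i : ℝ) = (2 : ℝ) ^ LL N * 2 ^ LL N +
    (2 * (dg N m (3 * i) : ℝ) - 2 ^ LL N) ^ 2 + (2 * (dg N m (3 * i + 1) : ℝ) - 2 ^ LL N) ^ 2 := by
  unfold qq
  push_cast [sd_cast]
  ring

theorem xx_cast (N m i : ℕ) : (xx (N, m) i : ℝ) = 4 * ((dg N m (3 * i) : ℝ) * dg N m (3 * i)) +
    (2 * (dg N m (3 * i + 1) : ℝ) - 2 ^ LL N) ^ 2 := by
  unfold xx
  push_cast [sd_cast]
  ring

theorem yy_cast (N m i : ℕ) : (yy (N, m) i : ℝ) = (2 * (dg N m (3 * i) : ℝ) - 2 ^ LL N) ^ 2 +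
    4 * ((dg N m (3 * i + 1) : ℝ) * dg N m (3 * i + 1)) := by
  unfold yy
  push_cast [sd_cast]
  ring

theorem zz_cast (N m i : ℕ) : (zz (N, m) i : ℝ) = if dg N m (3 * i + 2) = 0 then
    2 * ((2 * (dg N m (3 * i) : ℝ) - 2 ^ LL N) ^ 2 + (2 * (dg N m (3 * i + 1) : ℝ) - 2 ^ LL N) ^ 2)
    else 2 * ((2 : ℝ) ^ LL N * 2 ^ LL N) := by
  unfold zz
  split_ifs
  · push_cast [sd_cast]
    ring
  · push_cast
    ring

theorem qq_pos (N m i : ℕ) : (0 : ℝ) < qq (N, m) i := by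
  rw [qq_cast]
  positivity

/-- `u`, `v` in terms of `a`, `b`, `M` -/
theorem alg (a b M e : ℝ) (hM : 0 < M) :
    2 * (2 * a / M - 1) / (1 + (2 * a / M - 1) ^ 2 + (2 * b / M - 1) ^ 2) =
      (4 * (a * a) + (2 * b - M) ^ 2) / (M * M + (2 * a - M) ^ 2 + (2 * b - M) ^ 2) - 1 ∧
    2 * (2 * b / M - 1) / (1 + (2 * a / M - 1) ^ 2 + (2 * b / M - 1) ^ 2) =
      ((2 * a - M) ^ 2 + 4 * (b * b)) / (M * M + (2 * a - M) ^ 2 + (2 * b - M) ^ 2) - 1 ∧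
    (-1) * (1 - (2 * a / M - 1) ^ 2 - (2 * b / M - 1) ^ 2) /
        (1 + (2 * a / M - 1) ^ 2 + (2 * b / M - 1) ^ 2) =
      (2 * ((2 * a - M) ^ 2 + (2 * b - M) ^ 2)) /
        (M * M + (2 * a - M) ^ 2 + (2 * b - M) ^ 2) - 1 ∧
    1 * (1 - (2 * a / M - 1) ^ 2 - (2 * b / M - 1) ^ 2) /
        (1 + (2 * a / M - 1) ^ 2 + (2 * b / M - 1) ^ 2) =
      (2 * (M * M)) / (M * M + (2 * a - M) ^ 2 + (2 * b - M) ^ 2) - 1 := by
  have hQ : M * M + (2 * a - M) ^ 2 + (2 * b - M) ^ 2 ≠ 0 := by positivity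
  have hD : 1 + (2 * a / M - 1) ^ 2 + (2 * b / M - 1) ^ 2 =
      (M * M + (2 * a - M) ^ 2 + (2 * b - M) ^ 2) / (M * M) := by
    field_simp
  rw [hD]
  refine ⟨?_, ?_, ?_, ?_⟩
  · field_simp
    ring
  · field_simp
    ring
  · field_simp
    ring
  · field_simp
    ring

theorem c0 (N m : ℕ) (i : Fin N) :
    cfg N m i 0 = (xx (N, m) i : ℝ) / (qq (N, m) i : ℝ) - 1 := by
  rw [xx_cast, qq_cast]
  exact (alg (dg N m (3 * i)) (dg N m (3 * i + 1)) (2 ^ LL N) 0 (by positivity)).1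

theorem c1 (N m : ℕ) (i : Fin N) :
    cfg N m i 1 = (yy (N, m) i : ℝ) / (qq (N, m) i : ℝ) - 1 := by
  rw [yy_cast, qq_cast]
  exact (alg (dg N m (3 * i)) (dg N m (3 * i + 1)) (2 ^ LL N) 0 (by positivity)).2.1

theorem c2 (N m : ℕ) (i : Fin N) :
    cfg N m i 2 = (zz (N, m) i : ℝ) / (qq (N, m) i : ℝ) - 1 := by
  rw [zz_cast, qq_cast]
  have h := (alg (dg N m (3 * i)) (dg N m (3 * i + 1)) (2 ^ LL N) 0 (by positivity)).2.2
  unfold cfg
  split_ifs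
  · exact h.1
  · exact h.2

end CDISx

open CDISx in
theorem c_dis : S_DIS := by
  intro N m i j
  have hi := qq_pos N m i
  have hj := qq_pos N m j
  rw [EuclideanSpace.norm_sq_eq, Fin.sum_univ_three]
  simp only [PiLp.sub_apply, Real.norm_eq_abs, sq_abs]
  rw [c0, c1, c2, c0, c1, c2]
  unfold dd
  push_cast [sd_cast]
  field_simp
  ring

end Pool.Agent.H87.SM
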