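import Pool.Agent.H87.SM.Defs

/-!
# A computable constant: definitions and statements of the parts
-/

set_option autoImplicit false

namespace Pool.Agent.H87.SM

/-- all real constants of the expression are in `S` -/
def Ex.Over (S : Set ℝ) : Ex → Prop
  | .reg _ => True
  | .con c => c ∈ S
  | .add a b => a.Over S ∧ b.Over S
  | .sub a b => a.Over S ∧ b.Over S
  | .mul a b => a.Over S ∧ b.Over S
  | .div a b => a.Over S ∧ b.Over S

/-- all real constants of the program are in `S` -/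
def Prg.Over (S : Set ℝ) : Prg → Prop
  | .skip => True
  | .set _ e => e.Over S
  | .out e => e.Over S
  | .seq p q => p.Over S ∧ q.Over S
  | .ite e p q => e.Over S ∧ p.Over S ∧ q.Over S
  | .loop e p => e.Over S ∧ p.Over S

/-- computable real numbers: limits of computable sequences of rational numbers with computable speed -/
def CompReal (x : ℝ) : Prop := ∃ p q r : ℕ → ℕ, Computable p ∧ Computable q ∧ Computable r ∧
  ∀ n, 0 < r n ∧ |x - ((p n : ℝ) - q n) / r n| ≤ 1 / 2 ^ n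

/-- square of the difference of natural numbers (the subtraction is truncated) -/
def sd (x y : ℕ) : ℕ := (x - y) * (x - y) + (y - x) * (y - x)

/-- digits of the code `m` in base `2 ^ LL N` -/
def dg (N m i : ℕ) : ℕ := m / 2 ^ (LL N * i) % 2 ^ LL N

/-- common denominator of the coordinates of the point `i` of the code `x = (N, m)` -/
def qq (x : ℕ × ℕ) (i : ℕ) : ℕ :=
  2 ^ LL x.1 * 2 ^ LL x.1 + sd (2 * dg x.1 x.2 (3 * i)) (2 ^ LL x.1) + sd (2 * dg x.1 x.2 (3 * i + 1)) (2 ^ LL x.1)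

/-- numerator of the first coordinate plus one -/
def xx (x : ℕ × ℕ) (i : ℕ) : ℕ :=
  4 * (dg x.1 x.2 (3 * i) * dg x.1 x.2 (3 * i)) + sd (2 * dg x.1 x.2 (3 * i + 1)) (2 ^ LL x.1)

/-- numerator of the second coordinate plus one -/
def yy (x : ℕ × ℕ) (i : ℕ) : ℕ :=
  sd (2 * dg x.1 x.2 (3 * i)) (2 ^ LL x.1) + 4 * (dg x.1 x.2 (3 * i + 1) * dg x.1 x.2 (3 * i + 1))

/-- numerator of the third coordinate plus one -/
def zz (x : ℕ × ℕ) (i : ℕ) : ℕ :=
  if dg x.1 x.2 (3 * i + 2) = 0 then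
    2 * (sd (2 * dg x.1 x.2 (3 * i)) (2 ^ LL x.1) + sd (2 * dg x.1 x.2 (3 * i + 1)) (2 ^ LL x.1))
  else 2 * (2 ^ LL x.1 * 2 ^ LL x.1)

/-- numerator of the squared distance (the denominator is `(qq x i * qq x j) ^ 2`) -/
def dd (x : ℕ × ℕ) (i j : ℕ) : ℕ :=
  sd (xx x i * qq x j) (xx x j * qq x i) + sd (yy x i * qq x j) (yy x j * qq x i) +
    sd (zz x i * qq x j) (zz x j * qq x i)

/-- numerator of the product of the squared distances -/
def num (x : ℕ × ℕ) : ℕ := ∏ i ∈ Finset.range x.1, ∏ j ∈ Finset.range x.1, if i = j then 1 else dd x i j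

/-- denominator of the product of the squared distances -/
def den (x : ℕ × ℕ) : ℕ :=
  ∏ i ∈ Finset.range x.1, ∏ j ∈ Finset.range x.1, if i = j then 1 else (qq x i * qq x j) * (qq x i * qq x j)

/-- the best code smaller than `n` -/
def best (N : ℕ) : ℕ → ℕ
  | 0 => 0
  | n + 1 => if num (N, best N n) * den (N, n) ≤ num (N, n) * den (N, best N n) then n else best N n

/-- the best code -/
def WW (N : ℕ) : ℕ := best N (2 ^ (3 * N * LL N))

/-- the configuration of the code `m` -/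
noncomputable def cfg (N m : ℕ) (i : Fin N) : E3 :=
  pt (2 * dg N m (3 * i) / 2 ^ LL N - 1) (2 * dg N m (3 * i + 1) / 2 ^ LL N - 1)
    (if dg N m (3 * i + 2) = 0 then -1 else 1)

/-- SMC-POW. `Primrec₂ (fun a b => a ^ b)` from `Primrec.nat_rec`; products: `Primrec.nat_rec'` and
`Finset.prod_range_succ`. -/
def S_POW : Prop := Primrec₂ (fun a b : ℕ => a ^ b) ∧
  ∀ (G : ℕ × ℕ → ℕ → ℕ), Primrec₂ G → Primrec₂ (fun (x : ℕ × ℕ) (n : ℕ) => ∏ i ∈ Finset.range n, G x i)

/-- SMC-PRA. The ingredients are primitive recursive (`Primrec.nat_mul`, `nat_div`, `nat_mod`, `nat_sub`, `ite`). -/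
def S_PRA : Prop := S_POW → Primrec₂ qq ∧ Primrec₂ xx ∧ Primrec₂ yy ∧ Primrec₂ zz

/-- SMC-PRB. `num`, `den`: products over `j` and then over `i`. For the inner product (the parameter is `((N, m), i)`)
repeat the argument of `S_POW` for a general parameter type, or encode the parameters by a pair of numbers with
`Nat.pair`. -/
def S_PRB : Prop := S_POW → Primrec₂ qq → Primrec₂ xx → Primrec₂ yy → Primrec₂ zz → Primrec num ∧ Primrec den

/-- SMC-PRC. `best` by `Primrec.nat_rec`, `Primrec.ite`, `Primrec.nat_le`; `WW`. -/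
def S_PRC : Prop := S_POW → Primrec num → Primrec den → Primrec WW

/-- SMC-BIT. The digits of the digits (`Nat.testBit_eq_decide_div_mod_eq`). -/
def S_BIT : Prop := S_POW → Primrec WW →
  Primrec₂ (fun N j : ℕ => (dg N (WW N) (j / LL N)).testBit (LL N - 1 - j % LL N))

/-- SMC-MAX. Induction on `n` for `best N n`: `num (N, m) * den (N, best N n) ≤ num (N, best N n) * den (N, m)` for
`m < n`, transitivity by cancelling positive denominators. -/
def S_MAX : Prop := (∀ x i, 0 < qq x i) ∧ (∀ x, 0 < den x) ∧ ∀ N m, m < 2 ^ (3 * N * LL N) →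
  num (N, m) * den (N, WW N) ≤ num (N, WW N) * den (N, m)

/-- SMC-DIS. The squared distance of two points of the code (write `M = 2 ^ LL N`, `A = 2 a - M`, `B = 2 b - M`;
`x + 1 = xx / qq`, `y + 1 = yy / qq`, `z + 1 = zz / qq`; `EuclideanSpace.norm_eq` or `EuclideanSpace.norm_sq_eq`,
`Fin.sum_univ_three`; see also `Pool.Agent.H87.SM.GEO1.nsq`). -/
def S_DIS : Prop := ∀ (N m : ℕ) (i j : Fin N),
  ‖cfg N m i - cfg N m j‖ ^ 2 = (dd (N, m) i j : ℝ) / ((qq (N, m) i * qq (N, m) j : ℕ) : ℝ) ^ 2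

/-- SMC-EN. From `S_DIS`: the quotient `num / den` is the product of the squared distances, so it is `0` iff two points
agree, and otherwise the energy is `- 1 / 2 log (num / den)`. -/
def S_EN : Prop := S_GEO → S_MAX → S_DIS → ∀ N m : ℕ,
  (Conf (cfg N m) ↔ 0 < num (N, m)) ∧
  (Conf (cfg N m) → energy (cfg N m) = - (1 / 2) * Real.log ((num (N, m) : ℝ) / den (N, m)))

/-- SMC-DIG. Numbers with given digits in base `2 ^ LL N` (induction on `K`). -/
def S_DIG : Prop := ∀ (N K : ℕ) (v : ℕ → ℕ), (∀ i, v i < 2 ^ LL N) →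
  ∃ m < 2 ^ (K * LL N), ∀ i < K, dg N m i = v i

/-- SMC-ENC. As `S_ENC` (see `ENC.lean`), with `β` given by
`β p = decide (∃ N ≤ p, B N ≤ p ∧ p < B N + l N ∧ D N (p - B N) = true)`, primitive recursive by bounded search
(`PrimrecRel.exists_lt` or `Primrec.nat_findGreatest`). -/
def S_ENP : Prop := ∀ (B l : ℕ → ℕ) (D : ℕ → ℕ → Bool), (∀ N, B N + l N ≤ B (N + 1)) → (∀ N, N ≤ B N) →
  Primrec B → Primrec l → Primrec₂ D →
  ∃ (X : ℕ → ℝ) (β : ℕ → Bool), Primrec β ∧ (∀ k, 4 * X k = (if β k then 1 else 0) + X (k + 1)) ∧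
    (∀ k, 0 ≤ X k ∧ X k < 1) ∧ ∀ N j, j < l N → β (B N + j) = D N j

/-- SMC-CR. `4 ^ n X 0 = g n + X n` with `g 0 = 0`, `g (n + 1) = 4 * g n + β n`; `p = g`, `q = 0`, `r n = 4 ^ n`. -/
def S_CR : Prop := ∀ (X : ℕ → ℝ) (β : ℕ → Bool), Primrec β → (∀ k, 4 * X k = (if β k then 1 else 0) + X (k + 1)) →
  (∀ k, 0 ≤ X k ∧ X k < 1) → CompReal (X 0)

/-- SMC-OPT. The best code is within `1` of the minimum: compare with the configuration of `S_APX`, encoded by `S_DIG`
with `v (3 i) = a i`, `v (3 i + 1) = b i`, `v (3 i + 2) = if e i then 1 else 0`. -/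
def S_OPT : Prop := S_GEO → S_UP → S_SEP → S_PER → S_RND → S_APX → S_MAX → S_DIS → S_EN → S_DIG →
  ∀ N : ℕ, 2 ≤ N → Conf (cfg N (WW N)) ∧ ∀ ω : Fin N → E3, Conf ω → energy (cfg N (WW N)) ≤ energy ω + 1

end Pool.Agent.H87.SM
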