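import Pool.Agent.H87.SM.CDefs

/-! SMC-EN: the quotient `num / den` is the product of the squared distances. -/

set_option autoImplicit false

namespace Pool.Agent.H87.SM

namespace CENaux

theorem num_eq (N m : ℕ) :
    num (N, m) = ∏ i : Fin N, ∏ j : Fin N, if i = j then 1 else dd (N, m) i j := by
  unfold num
  rw [Finset.prod_range]
  refine Finset.prod_congr rfl fun i _ => ?_
  rw [Finset.prod_range]
  refine Finset.prod_congr rfl fun j _ => ?_
  by_cases h : i = j
  · simp [h]
  · have h' : (i : ℕ) ≠ (j : ℕ) := fun h' => h (Fin.ext h')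
    simp [h, h']

theorem den_eq (N m : ℕ) :
    den (N, m) = ∏ i : Fin N, ∏ j : Fin N, if i = j then 1 else
      (qq (N, m) i * qq (N, m) j) * (qq (N, m) i * qq (N, m) j) := by
  unfold den
  rw [Finset.prod_range]
  refine Finset.prod_congr rfl fun i _ => ?_
  rw [Finset.prod_range]
  refine Finset.prod_congr rfl fun j _ => ?_
  by_cases h : i = j
  · simp [h]
  · have h' : (i : ℕ) ≠ (j : ℕ) := fun h' => h (Fin.ext h')
    simp [h, h']

theorem quot_eq (hD : S_DIS) (N m : ℕ) :
    (num (N, m) : ℝ) / den (N, m) =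
      ∏ i : Fin N, ∏ j : Fin N, if i = j then (1 : ℝ) else ‖cfg N m i - cfg N m j‖ ^ 2 := by
  rw [num_eq, den_eq]
  push_cast
  rw [← Finset.prod_div_distrib]
  refine Finset.prod_congr rfl fun i _ => ?_
  rw [← Finset.prod_div_distrib]
  refine Finset.prod_congr rfl fun j _ => ?_
  by_cases h : i = j
  · simp [h]
  · simp only [h, if_false]
    rw [hD N m i j]
    push_cast
    rw [sq]

end CENaux

open CENaux

theorem c_en : S_EN := by
  intro hG hM hD N m
  obtain ⟨hq, hden, -⟩ := hM
  have hnorm : ∀ i : Fin N, ‖cfg N m i‖ = 1 := by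
    intro i
    unfold cfg
    refine hG.1 _ _ _ ?_
    split_ifs
    · exact Or.inr rfl
    · exact Or.inl rfl
  have hdd : ∀ i j : Fin N, 0 < dd (N, m) i j ↔ cfg N m i ≠ cfg N m j := by
    intro i j
    have h1 := hD N m i j
    have h2 : (0 : ℝ) < ((qq (N, m) i * qq (N, m) j : ℕ) : ℝ) ^ 2 := by
      have : 0 < qq (N, m) i * qq (N, m) j := Nat.mul_pos (hq _ _) (hq _ _)
      have h3 : (0 : ℝ) < ((qq (N, m) i * qq (N, m) j : ℕ) : ℝ) := by exact_mod_cast this
      exact pow_pos h3 2
    constructor
    · intro h he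
      rw [he, sub_self, norm_zero] at h1
      have h3 : (0 : ℝ) < (dd (N, m) i j : ℝ) := by exact_mod_cast h
      have h4 := div_pos h3 h2
      rw [← h1] at h4
      norm_num at h4
    · intro h
      by_contra h0
      have h3 : dd (N, m) i j = 0 := by omega
      rw [h3, Nat.cast_zero, zero_div] at h1
      have h4 : ‖cfg N m i - cfg N m j‖ = 0 := by
        exact pow_eq_zero_iff (two_ne_zero) |>.1 h1
      exact h (sub_eq_zero.1 (norm_eq_zero.1 h4))
  refine ⟨?_, ?_⟩
  · rw [num_eq]
    constructor
    · intro h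
      refine Finset.prod_pos fun i _ => Finset.prod_pos fun j _ => ?_
      by_cases hij : i = j
      · simp [hij]
      · rw [if_neg hij]
        exact (hdd i j).2 fun h' => hij (h.1 h')
    · intro h
      refine ⟨fun i j hij => ?_, hnorm⟩
      by_contra hne
      have h1 : (if i = j then 1 else dd (N, m) i j) = 0 := by
        rw [if_neg hne]
        by_contra h0
        exact (hdd i j).1 (Nat.pos_of_ne_zero h0) hij
      have h2 : (∏ j : Fin N, if i = j then 1 else dd (N, m) i j) = 0 :=
        Finset.prod_eq_zero (Finset.mem_univ j) h1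
      have h3 : (∏ i : Fin N, ∏ j : Fin N, if i = j then 1 else dd (N, m) i j) = 0 :=
        Finset.prod_eq_zero (Finset.mem_univ i) h2
      omega
  · intro hC
    have hpos : ∀ i j : Fin N, i ≠ j → 0 < ‖cfg N m i - cfg N m j‖ := by
      intro i j hij
      rw [norm_pos_iff, sub_ne_zero]
      exact fun h => hij (hC.1 h)
    rw [quot_eq hD]
    have hne : ∀ i j : Fin N, (if i = j then (1 : ℝ) else ‖cfg N m i - cfg N m j‖ ^ 2) ≠ 0 := by
      intro i j
      split_ifs with h
      · exact one_ne_zero
      · exact pow_ne_zero _ (hpos i j h).ne'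
    rw [Real.log_prod (fun i _ => Finset.prod_ne_zero_iff.2 fun j _ => hne i j)]
    unfold energy
    rw [neg_mul, Finset.mul_sum]
    congr 1
    refine Finset.sum_congr rfl fun i _ => ?_
    rw [Real.log_prod (fun j _ => hne i j), Finset.mul_sum]
    refine Finset.sum_congr rfl fun j _ => ?_
    by_cases hij : i = j
    · simp [hij]
    · rw [if_pos hij, if_neg hij, Real.log_pow]
      push_cast
      ring

end Pool.Agent.H87.SM
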