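import Pool.Agent.H87.SM.Defs

/-!
# SM-ENC: a sequence of bits in one real number
-/

set_option autoImplicit false

namespace Pool.Agent.H87.SM

namespace ENCAux

open Classical in
/-- the number with the digits `β (k + j)` -/
noncomputable def Y (β : ℕ → Bool) (k : ℕ) : ℝ :=
  ∑' j : ℕ, (if β (k + j) then (1 : ℝ) else 0) * (1 / 4) ^ (j + 1)

theorem geo : HasSum (fun j : ℕ => ((1 : ℝ) / 4) ^ (j + 1)) (1 / 3) := by
  have h := (hasSum_geometric_of_lt_one (r := (1 : ℝ) / 4) (by norm_num) (by norm_num)).mul_left (1 / 4)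
  have e : (1 : ℝ) / 4 * (1 - 1 / 4)⁻¹ = 1 / 3 := by norm_num
  rw [e] at h
  have e2 : (fun j : ℕ => ((1 : ℝ) / 4) ^ (j + 1)) = fun j : ℕ => 1 / 4 * (1 / 4) ^ j := by
    funext j
    rw [pow_succ]; ring
  rw [e2]
  exact h

theorem term_nonneg (β : ℕ → Bool) (k j : ℕ) : 0 ≤ (if β (k + j) then (1 : ℝ) else 0) * (1 / 4) ^ (j + 1) := by
  split_ifs <;> positivity

theorem term_le (β : ℕ → Bool) (k j : ℕ) :
    (if β (k + j) then (1 : ℝ) else 0) * (1 / 4) ^ (j + 1) ≤ (1 / 4) ^ (j + 1) := by
  split_ifs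
  · rw [one_mul]
  · rw [zero_mul]; positivity

theorem summ (β : ℕ → Bool) (k : ℕ) :
    Summable fun j : ℕ => (if β (k + j) then (1 : ℝ) else 0) * (1 / 4) ^ (j + 1) :=
  Summable.of_nonneg_of_le (term_nonneg β k) (term_le β k) geo.summable

theorem rec (β : ℕ → Bool) (k : ℕ) : 4 * Y β k = (if β k then 1 else 0) + Y β (k + 1) := by
  unfold Y
  rw [(summ β k).tsum_eq_zero_add, mul_add, ← tsum_mul_left]
  congr 1
  · simp
  · refine tsum_congr fun j => ?_
    rw [show k + (j + 1) = k + 1 + j by omega, pow_succ]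
    ring

theorem bd (β : ℕ → Bool) (k : ℕ) : 0 ≤ Y β k ∧ Y β k < 1 := by
  refine ⟨tsum_nonneg (term_nonneg β k), ?_⟩
  have h := (summ β k).tsum_le_tsum (term_le β k) geo.summable
  rw [geo.tsum_eq] at h
  exact lt_of_le_of_lt h (by norm_num)

end ENCAux

theorem enc : S_ENC := by
  classical
  intro B l D hB
  have hmono : Monotone B := monotone_nat_of_le_succ fun N => (Nat.le_add_right _ _).trans (hB N)
  have huniq : ∀ N j N' j', j < l N → j' < l N' → B N + j = B N' + j' → N = N' ∧ j = j' := by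
    intro N j N' j' h h' he
    rcases lt_trichotomy N N' with hlt | heq | hgt
    · have h1 := hmono (Nat.succ_le_of_lt hlt)
      have h2 := hB N
      simp only [Nat.succ_eq_add_one] at h1
      omega
    · subst heq
      exact ⟨rfl, by omega⟩
    · have h1 := hmono (Nat.succ_le_of_lt hgt)
      have h2 := hB N'
      simp only [Nat.succ_eq_add_one] at h1
      omega
  refine ⟨ENCAux.Y fun p => decide (∃ N j, j < l N ∧ B N + j = p ∧ D N j = true),
    fun p => decide (∃ N j, j < l N ∧ B N + j = p ∧ D N j = true), ?_, ?_, ?_⟩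
  · intro k
    exact ENCAux.rec _ k
  · intro k
    exact ENCAux.bd _ k
  · intro N j hj
    by_cases h : D N j = true
    · rw [h]
      exact decide_eq_true ⟨N, j, hj, rfl, h⟩
    · have h' : D N j = false := by simpa using h
      rw [h']
      refine decide_eq_false ?_
      rintro ⟨N', j', hj', he, hD⟩
      obtain ⟨rfl, rfl⟩ := huniq N' j' N j hj' hj he
      exact h hD

end Pool.Agent.H87.SM
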