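import Pool.Agent.H87.SM.CDefs
import Pool.Agent.H87.SM.ENC

/-!
# SMC-ENP: a sequence of bits in one real number, with primitive recursive digits
-/

set_option autoImplicit false

namespace Pool.Agent.H87.SM

namespace CENPx

theorem pred (B l : ℕ → ℕ) (D : ℕ → ℕ → Bool) (hB : Primrec B) (hl : Primrec l) (hD : Primrec₂ D) :
    PrimrecPred fun p : ℕ => ∃ N < p + 1, B N ≤ p ∧ p < B N + l N ∧ D N (p - B N) = true := by
  have h1 : PrimrecRel fun N p : ℕ => B N ≤ p ∧ p < B N + l N ∧ D N (p - B N) = true := by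
    have a1 : Primrec fun q : ℕ × ℕ => B q.1 := hB.comp Primrec.fst
    have a2 : Primrec fun q : ℕ × ℕ => B q.1 + l q.1 := Primrec.nat_add.comp a1 (hl.comp Primrec.fst)
    have a3 : Primrec fun q : ℕ × ℕ => q.2 - B q.1 := Primrec.nat_sub.comp Primrec.snd a1
    have a4 : Primrec fun q : ℕ × ℕ => D q.1 (q.2 - B q.1) := hD.comp Primrec.fst a3
    have b1 : PrimrecPred fun q : ℕ × ℕ => B q.1 ≤ q.2 := Primrec.nat_le.comp a1 Primrec.snd
    have b2 : PrimrecPred fun q : ℕ × ℕ => q.2 < B q.1 + l q.1 := Primrec.nat_lt.comp Primrec.snd a2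
    have b3 : PrimrecPred fun q : ℕ × ℕ => D q.1 (q.2 - B q.1) = true :=
      Primrec.eq.comp a4 (Primrec.const true)
    exact b1.and (b2.and b3)
  have h2 := h1.exists_lt
  exact h2.comp Primrec.succ Primrec.id

end CENPx

theorem c_enp : S_ENP := by
  intro B l D hB hN hBp hlp hDp
  obtain ⟨inst, hβ⟩ := CENPx.pred B l D hBp hlp hDp
  have hmono : Monotone B := monotone_nat_of_le_succ fun N => (Nat.le_add_right _ _).trans (hB N)
  have huniq : ∀ N N' p : ℕ, B N ≤ p → p < B N + l N → B N' ≤ p → p < B N' + l N' → N = N' := by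
    intro N N' p h1 h2 h3 h4
    rcases lt_trichotomy N N' with hlt | heq | hgt
    · have h5 := hmono (Nat.succ_le_of_lt hlt)
      have h6 := hB N
      simp only [Nat.succ_eq_add_one] at h5
      omega
    · exact heq
    · have h5 := hmono (Nat.succ_le_of_lt hgt)
      have h6 := hB N'
      simp only [Nat.succ_eq_add_one] at h5
      omega
  refine ⟨ENCAux.Y fun p => @decide _ (inst p), fun p => @decide _ (inst p), hβ, fun k => ENCAux.rec _ k,
    fun k => ENCAux.bd _ k, ?_⟩
  intro N j hj
  have hlt : N < B N + j + 1 := by have := hN N; omega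
  by_cases h : D N j = true
  · rw [h]
    refine decide_eq_true (⟨N, hlt, by omega, by omega, ?_⟩ : ∃ N' < B N + j + 1, B N' ≤ B N + j ∧
      B N + j < B N' + l N' ∧ D N' (B N + j - B N') = true)
    rw [Nat.add_sub_cancel_left]; exact h
  · have h' : D N j = false := by simpa using h
    rw [h']
    refine decide_eq_false ?_
    rintro ⟨N', -, h1, h2, h3⟩
    have e := huniq N' N (B N + j) h1 h2 (by omega) (by omega)
    rw [e, Nat.add_sub_cancel_left] at h3
    exact h h3

end Pool.Agent.H87.SM
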