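import Pool.Agent.H87.SM.CDefs

/-! # Stub SMC-MAX: the best code is a maximum -/

set_option autoImplicit false

namespace Pool.Agent.H87.SM

namespace CMAXx

theorem qq_pos (x : ℕ × ℕ) (i : ℕ) : 0 < qq x i := by
  unfold qq
  have : 0 < 2 ^ LL x.1 * 2 ^ LL x.1 := by positivity
  omega

theorem den_pos (x : ℕ × ℕ) : 0 < den x := by
  unfold den
  refine Finset.prod_pos fun i _ => Finset.prod_pos fun j _ => ?_
  split_ifs
  · exact one_pos
  · have := qq_pos x i
    have := qq_pos x j
    positivity

theorem step {a b c d e f : ℕ} (hd : 0 < d) (h1 : a * d ≤ c * b) (h2 : c * f ≤ e * d) : a * f ≤ e * b := by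
  have h3 : (a * f) * d ≤ (e * b) * d := by
    calc (a * f) * d = (a * d) * f := by ring
      _ ≤ (c * b) * f := Nat.mul_le_mul_right _ h1
      _ = (c * f) * b := by ring
      _ ≤ (e * d) * b := Nat.mul_le_mul_right _ h2
      _ = (e * b) * d := by ring
  exact Nat.le_of_mul_le_mul_right h3 hd

theorem max (N n : ℕ) : ∀ m < n, num (N, m) * den (N, best N n) ≤ num (N, best N n) * den (N, m) := by
  induction n with
  | zero => intro m hm; omega
  | succ n ih =>
    intro m hm
    have hb : best N (n + 1) = if num (N, best N n) * den (N, n) ≤ num (N, n) * den (N, best N n) then n else best N n := rfl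
    rw [hb]
    split_ifs with h
    · rcases Nat.lt_succ_iff_lt_or_eq.1 hm with h1 | h1
      · exact step (den_pos _) (ih m h1) h
      · rw [h1]
    · rcases Nat.lt_succ_iff_lt_or_eq.1 hm with h1 | h1
      · exact ih m h1
      · rw [h1]
        exact (not_le.1 h).le

end CMAXx

theorem c_max : S_MAX := ⟨CMAXx.qq_pos, CMAXx.den_pos, fun N m hm => CMAXx.max N _ m hm⟩

end Pool.Agent.H87.SM
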