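import Pool.Agent.H87.SM.CDefs

/-! # Stub SMC-OPT: the best code -/

set_option autoImplicit false

namespace Pool.Agent.H87.SM

namespace COPTx

/-- the digits of a configuration -/
def dv {N : ℕ} (a b : Fin N → ℕ) (e : Fin N → Bool) (k : ℕ) : ℕ :=
  if h : k / 3 < N then
    (if k % 3 = 0 then a ⟨k / 3, h⟩ else if k % 3 = 1 then b ⟨k / 3, h⟩ else if e ⟨k / 3, h⟩ then 1 else 0)
  else 0

theorem dv0 {N : ℕ} (a b : Fin N → ℕ) (e : Fin N → Bool) (i : Fin N) : dv a b e (3 * i) = a i := by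
  have h1 : 3 * (i : ℕ) / 3 = i := by omega
  have h2 : 3 * (i : ℕ) % 3 = 0 := by omega
  unfold dv
  rw [dif_pos (by rw [h1]; exact i.2), if_pos h2]
  congr 1
  exact Fin.ext h1

theorem dv1 {N : ℕ} (a b : Fin N → ℕ) (e : Fin N → Bool) (i : Fin N) : dv a b e (3 * i + 1) = b i := by
  have h1 : (3 * (i : ℕ) + 1) / 3 = i := by omega
  have h2 : (3 * (i : ℕ) + 1) % 3 = 1 := by omega
  unfold dv
  rw [dif_pos (by rw [h1]; exact i.2), if_neg (by omega), if_pos h2]
  congr 1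
  exact Fin.ext h1

theorem dv2 {N : ℕ} (a b : Fin N → ℕ) (e : Fin N → Bool) (i : Fin N) : dv a b e (3 * i + 2) = if e i then 1 else 0 := by
  have h1 : (3 * (i : ℕ) + 2) / 3 = i := by omega
  have h2 : (3 * (i : ℕ) + 2) % 3 = 2 := by omega
  unfold dv
  rw [dif_pos (by rw [h1]; exact i.2), if_neg (by omega), if_neg (by omega)]
  have h3 : (⟨(3 * (i : ℕ) + 2) / 3, by rw [h1]; exact i.2⟩ : Fin N) = i := Fin.ext h1
  rw [h3]

end COPTx

open COPTx in
theorem c_opt : S_OPT := by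
  intro hGEO hUP hSEP hPER hRND hAPX hMAX hDIS hEN hDIG N hN
  obtain ⟨a, b, e, ha, hb, hconf, hen⟩ := hAPX hGEO hUP hSEP hPER hRND N hN
  have hLL : 1 ≤ LL N := by
    unfold LL
    have : 1 ≤ N ^ 3 := Nat.one_le_pow _ _ (by omega)
    omega
  have h2L : 2 ≤ 2 ^ LL N := by
    calc 2 = 2 ^ 1 := rfl
      _ ≤ 2 ^ LL N := Nat.pow_le_pow_right (by norm_num) hLL
  have hv : ∀ i, dv a b e i < 2 ^ LL N := by
    intro i
    unfold dv
    split_ifs
    · exact ha _
    · exact hb _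
    · omega
    · omega
    · omega
  obtain ⟨m, hm, hd⟩ := hDIG N (3 * N) (dv a b e) hv
  have hcfg : cfg N m = fun i => pt (2 * a i / 2 ^ LL N - 1) (2 * b i / 2 ^ LL N - 1) (if e i then 1 else -1) := by
    funext i
    unfold cfg
    have hi := i.2
    rw [hd (3 * i) (by omega), hd (3 * i + 1) (by omega), hd (3 * i + 2) (by omega), dv0, dv1, dv2]
    by_cases h : e i = true
    · rw [if_pos h, if_neg one_ne_zero, if_pos h]
    · rw [if_neg h, if_pos rfl, if_neg h]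
  obtain ⟨hE1, hE2⟩ := hEN hGEO hMAX hDIS N m
  obtain ⟨hW1, hW2⟩ := hEN hGEO hMAX hDIS N (WW N)
  obtain ⟨_, hden, hmax⟩ := hMAX
  have hconf' : Conf (cfg N m) := by rw [hcfg]; exact hconf
  have hnum : 0 < num (N, m) := hE1.1 hconf'
  have h1 := hmax N m hm
  have hd1 := hden (N, WW N)
  have hd2 := hden (N, m)
  have hnumW : 0 < num (N, WW N) := by
    rcases Nat.eq_zero_or_pos (num (N, WW N)) with h | h
    · rw [h, zero_mul] at h1
      have := Nat.mul_pos hnum hd1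
      omega
    · exact h
  have hWc : Conf (cfg N (WW N)) := hW1.2 hnumW
  refine ⟨hWc, fun ω hω => ?_⟩
  have h2 := hen ω hω
  rw [← hcfg, hE2 hconf'] at h2
  rw [hW2 hWc]
  refine le_trans ?_ h2
  have r1 : (0 : ℝ) < num (N, m) := by exact_mod_cast hnum
  have r2 : (0 : ℝ) < den (N, m) := by exact_mod_cast hd2
  have r3 : (0 : ℝ) < den (N, WW N) := by exact_mod_cast hd1
  have h3 : (num (N, m) : ℝ) / den (N, m) ≤ (num (N, WW N) : ℝ) / den (N, WW N) := by
    rw [div_le_div_iff₀ r2 r3]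
    exact_mod_cast h1
  have h4 := Real.log_le_log (div_pos r1 r2) h3
  linarith

end Pool.Agent.H87.SM
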