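import Pool.Agent.H87.SM.CDefs

/-! SMC-POW (helper62): powers and finite products are primitive recursive -/

set_option autoImplicit false

namespace Pool.Agent.H87.SM

theorem c_pow : S_POW := by
  refine ⟨?_, fun G hG => ?_⟩
  · have h := Primrec.nat_rec (α := ℕ) (β := ℕ) (f := fun _ => 1) (g := fun a p => p.2 * a)
      (Primrec.const 1) (Primrec.nat_mul.comp (Primrec.snd.comp Primrec.snd) Primrec.fst)
    refine h.of_eq fun a n => ?_
    induction n with
    | zero => rfl
    | succ n ih => rw [pow_succ, ← ih]
  · have h := Primrec.nat_rec (α := ℕ × ℕ) (β := ℕ) (f := fun _ => 1)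
      (g := fun x p => p.2 * G x p.1) (Primrec.const 1)
      (Primrec.nat_mul.comp (Primrec.snd.comp Primrec.snd)
        (hG.comp Primrec.fst (Primrec.fst.comp Primrec.snd)))
    refine h.of_eq fun x n => ?_
    induction n with
    | zero => rfl
    | succ n ih => rw [Finset.prod_range_succ, ← ih]

end Pool.Agent.H87.SM
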