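import Pool.Agent.H87.SM.CDefs

/-! # SMC-PRA (helper71) -/

set_option autoImplicit false

namespace Pool.Agent.H87.SM

namespace CPRA

variable {α : Type*} [Primcodable α]

theorem pmul {f g : α → ℕ} (hf : Primrec f) (hg : Primrec g) : Primrec fun a => f a * g a :=
  Primrec.nat_mul.comp hf hg

theorem padd {f g : α → ℕ} (hf : Primrec f) (hg : Primrec g) : Primrec fun a => f a + g a :=
  Primrec.nat_add.comp hf hg

theorem psub {f g : α → ℕ} (hf : Primrec f) (hg : Primrec g) : Primrec fun a => f a - g a :=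
  Primrec.nat_sub.comp hf hg

theorem pdiv {f g : α → ℕ} (hf : Primrec f) (hg : Primrec g) : Primrec fun a => f a / g a :=
  Primrec.nat_div.comp hf hg

theorem pmod {f g : α → ℕ} (hf : Primrec f) (hg : Primrec g) : Primrec fun a => f a % g a :=
  Primrec.nat_mod.comp hf hg

theorem ppow (h : Primrec₂ (fun a b : ℕ => a ^ b)) {f g : α → ℕ} (hf : Primrec f) (hg : Primrec g) :
    Primrec fun a => f a ^ g a :=
  h.comp hf hg

theorem psd {f g : α → ℕ} (hf : Primrec f) (hg : Primrec g) : Primrec fun a => sd (f a) (g a) := by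
  unfold sd
  exact padd (pmul (psub hf hg) (psub hf hg)) (pmul (psub hg hf) (psub hg hf))

theorem pLL (h : Primrec₂ (fun a b : ℕ => a ^ b)) {f : α → ℕ} (hf : Primrec f) :
    Primrec fun a => LL (f a) := by
  unfold LL
  exact pmul (Primrec.const 16) (ppow h hf (Primrec.const 3))

theorem pdg (h : Primrec₂ (fun a b : ℕ => a ^ b)) {f g k : α → ℕ} (hf : Primrec f) (hg : Primrec g)
    (hk : Primrec k) : Primrec fun a => dg (f a) (g a) (k a) := by
  unfold dg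
  exact pmod (pdiv hg (ppow h (Primrec.const 2) (pmul (pLL h hf) hk))) (ppow h (Primrec.const 2) (pLL h hf))

end CPRA

open CPRA in
theorem c_pra : S_PRA := by
  rintro ⟨h, -⟩
  have hN : Primrec fun p : (ℕ × ℕ) × ℕ => p.1.1 := Primrec.fst.comp Primrec.fst
  have hm : Primrec fun p : (ℕ × ℕ) × ℕ => p.1.2 := Primrec.snd.comp Primrec.fst
  have hi : Primrec fun p : (ℕ × ℕ) × ℕ => p.2 := Primrec.snd
  have h3i : Primrec fun p : (ℕ × ℕ) × ℕ => 3 * p.2 := pmul (Primrec.const 3) hi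
  have h3i1 : Primrec fun p : (ℕ × ℕ) × ℕ => 3 * p.2 + 1 := padd h3i (Primrec.const 1)
  have h3i2 : Primrec fun p : (ℕ × ℕ) × ℕ => 3 * p.2 + 2 := padd h3i (Primrec.const 2)
  have hM : Primrec fun p : (ℕ × ℕ) × ℕ => 2 ^ LL p.1.1 := ppow h (Primrec.const 2) (pLL h hN)
  have hMM : Primrec fun p : (ℕ × ℕ) × ℕ => 2 ^ LL p.1.1 * 2 ^ LL p.1.1 := pmul hM hM
  have hA : Primrec fun p : (ℕ × ℕ) × ℕ => dg p.1.1 p.1.2 (3 * p.2) := pdg h hN hm h3i
  have hB : Primrec fun p : (ℕ × ℕ) × ℕ => dg p.1.1 p.1.2 (3 * p.2 + 1) := pdg h hN hm h3i1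
  have hC : Primrec fun p : (ℕ × ℕ) × ℕ => dg p.1.1 p.1.2 (3 * p.2 + 2) := pdg h hN hm h3i2
  have hsA : Primrec fun p : (ℕ × ℕ) × ℕ => sd (2 * dg p.1.1 p.1.2 (3 * p.2)) (2 ^ LL p.1.1) :=
    psd (pmul (Primrec.const 2) hA) hM
  have hsB : Primrec fun p : (ℕ × ℕ) × ℕ => sd (2 * dg p.1.1 p.1.2 (3 * p.2 + 1)) (2 ^ LL p.1.1) :=
    psd (pmul (Primrec.const 2) hB) hM
  refine ⟨?_, ?_, ?_, ?_⟩
  · exact padd (padd hMM hsA) hsB
  · exact padd (pmul (Primrec.const 4) (pmul hA hA)) hsB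
  · exact padd hsA (pmul (Primrec.const 4) (pmul hB hB))
  · have hc : PrimrecPred fun p : (ℕ × ℕ) × ℕ => dg p.1.1 p.1.2 (3 * p.2 + 2) = 0 :=
      Primrec.eq.comp hC (Primrec.const 0)
    exact Primrec.ite hc (pmul (Primrec.const 2) (padd hsA hsB)) (pmul (Primrec.const 2) hMM)

end Pool.Agent.H87.SM
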