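import Pool.Agent.H87.SM.CDefs

/-!
# SMC-PRB: `num` and `den` are primitive recursive
-/

set_option autoImplicit false

namespace Pool.Agent.H87.SM

namespace CPRB

/-- products with a primitive recursive number of factors -/
theorem prod_prim {α : Type} [Primcodable α] {G : α → ℕ → ℕ} (hG : Primrec₂ G) {n : α → ℕ}
    (hn : Primrec n) : Primrec (fun x => ∏ i ∈ Finset.range (n x), G x i) := by
  have hh : Primrec₂ (fun (x : α) (p : ℕ × ℕ) => p.2 * G x p.1) :=
    Primrec.nat_mul.comp (Primrec.snd.comp Primrec.snd)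
      (hG.comp Primrec.fst (Primrec.fst.comp Primrec.snd))
  refine (Primrec.nat_rec' hn (Primrec.const 1) hh).of_eq fun x => ?_
  induction n x with
  | zero => simp
  | succ k ih =>
    rw [Finset.prod_range_succ, ← ih]

theorem sd_prim : Primrec₂ sd := by
  have h1 : Primrec₂ (fun a b : ℕ => a - b) := Primrec.nat_sub
  have h2 : Primrec₂ (fun a b : ℕ => b - a) := Primrec.nat_sub.comp Primrec.snd Primrec.fst
  exact Primrec.nat_add.comp (Primrec.nat_mul.comp h1 h1) (Primrec.nat_mul.comp h2 h2)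

/-- double products over the pairs of different indices -/
theorem double {G : ℕ × ℕ → ℕ → ℕ → ℕ}
    (hG : Primrec (fun p : ((ℕ × ℕ) × ℕ) × ℕ => G p.1.1 p.1.2 p.2)) :
    Primrec (fun x : ℕ × ℕ => ∏ i ∈ Finset.range x.1, ∏ j ∈ Finset.range x.1,
      if i = j then 1 else G x i j) := by
  have h1 : Primrec₂ (fun (y : (ℕ × ℕ) × ℕ) (j : ℕ) => if y.2 = j then 1 else G y.1 y.2 j) :=
    Primrec.ite (Primrec.eq.comp (Primrec.snd.comp Primrec.fst) Primrec.snd) (Primrec.const 1) hG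
  have h2 : Primrec (fun y : (ℕ × ℕ) × ℕ => ∏ j ∈ Finset.range y.1.1,
      if y.2 = j then 1 else G y.1 y.2 j) :=
    prod_prim h1 (Primrec.fst.comp Primrec.fst)
  have h3 : Primrec₂ (fun (x : ℕ × ℕ) (i : ℕ) => ∏ j ∈ Finset.range x.1,
      if i = j then 1 else G x i j) := h2
  exact prod_prim h3 Primrec.fst

end CPRB

open CPRB in
theorem c_prb : S_PRB := by
  intro _ hq hx hy hz
  have fi : Primrec (fun p : ((ℕ × ℕ) × ℕ) × ℕ => p.1.1) := Primrec.fst.comp Primrec.fst
  have si : Primrec (fun p : ((ℕ × ℕ) × ℕ) × ℕ => p.1.2) := Primrec.snd.comp Primrec.fst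
  have ti : Primrec (fun p : ((ℕ × ℕ) × ℕ) × ℕ => p.2) := Primrec.snd
  have q1 := hq.comp fi si
  have q2 := hq.comp fi ti
  have aux : ∀ {f : ℕ × ℕ → ℕ → ℕ}, Primrec₂ f → Primrec (fun p : ((ℕ × ℕ) × ℕ) × ℕ =>
      sd (f p.1.1 p.1.2 * qq p.1.1 p.2) (f p.1.1 p.2 * qq p.1.1 p.1.2)) := fun hf =>
    sd_prim.comp (Primrec.nat_mul.comp (hf.comp fi si) q2)
      (Primrec.nat_mul.comp (hf.comp fi ti) q1)
  have hqq := Primrec.nat_mul.comp q1 q2
  exact ⟨double (G := dd) (Primrec.nat_add.comp (Primrec.nat_add.comp (aux hx) (aux hy)) (aux hz)),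
    double (G := fun x i j => (qq x i * qq x j) * (qq x i * qq x j))
      (Primrec.nat_mul.comp hqq hqq)⟩

end Pool.Agent.H87.SM
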