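import Pool.Agent.H87.SM.CDefs

set_option autoImplicit false

namespace Pool.Agent.H87.SM

namespace CPRCaux

theorem best_prim (hnum : Primrec num) (hden : Primrec den) : Primrec₂ best := by
  have hN : Primrec (fun p : ℕ × (ℕ × ℕ) => p.1) := Primrec.fst
  have hn : Primrec (fun p : ℕ × (ℕ × ℕ) => p.2.1) := Primrec.fst.comp Primrec.snd
  have hI : Primrec (fun p : ℕ × (ℕ × ℕ) => p.2.2) := Primrec.snd.comp Primrec.snd
  have h1 : Primrec (fun p : ℕ × (ℕ × ℕ) => num (p.1, p.2.2) * den (p.1, p.2.1)) :=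
    Primrec.nat_mul.comp (hnum.comp (Primrec.pair hN hI)) (hden.comp (Primrec.pair hN hn))
  have h2 : Primrec (fun p : ℕ × (ℕ × ℕ) => num (p.1, p.2.1) * den (p.1, p.2.2)) :=
    Primrec.nat_mul.comp (hnum.comp (Primrec.pair hN hn)) (hden.comp (Primrec.pair hN hI))
  have hg : Primrec₂ (fun (N : ℕ) (q : ℕ × ℕ) =>
      if num (N, q.2) * den (N, q.1) ≤ num (N, q.1) * den (N, q.2) then q.1 else q.2) :=
    Primrec.ite (Primrec.nat_le.comp h1 h2) hn hI
  have h := Primrec.nat_rec (Primrec.const 0 : Primrec (fun _ : ℕ => (0 : ℕ))) hg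
  refine h.of_eq fun N n => ?_
  induction n with
  | zero => rfl
  | succ n ih =>
    rw [best]
    simp only at ih ⊢
    rw [← ih]

end CPRCaux

/-- SMC-PRC (helper48) -/
theorem c_prc : S_PRC := by
  intro hpow hnum hden
  have hLL : Primrec LL :=
    Primrec.nat_mul.comp (Primrec.const 16) (hpow.1.comp Primrec.id (Primrec.const 3))
  have h1 : Primrec (fun N : ℕ => 3 * N * LL N) :=
    Primrec.nat_mul.comp (Primrec.nat_mul.comp (Primrec.const 3) Primrec.id) hLL
  have h2 : Primrec (fun N : ℕ => 2 ^ (3 * N * LL N)) := hpow.1.comp (Primrec.const 2) h1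
  exact (CPRCaux.best_prim hnum hden).comp Primrec.id h2

end Pool.Agent.H87.SM
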