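import Mathlib

/-!
# Real number machines and the logarithmic energy (MP_b52344_lc): definitions and statements of the parts
-/

set_option autoImplicit false

namespace Pool.Agent.H87.SM

/-! ## Programs over the real numbers -/

/-- arithmetic expressions in the registers, with real constants -/
inductive Ex : Type
  | reg (i : ℕ)
  | con (c : ℝ)
  | add (a b : Ex)
  | sub (a b : Ex)
  | mul (a b : Ex)
  | div (a b : Ex)

/-- value of an expression -/
noncomputable def Ex.val (r : ℕ → ℝ) : Ex → ℝ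
  | .reg i => r i
  | .con c => c
  | .add a b => a.val r + b.val r
  | .sub a b => a.val r - b.val r
  | .mul a b => a.val r * b.val r
  | .div a b => a.val r / b.val r

/-- number of operations (reading a register or a constant counts too) -/
def Ex.cost : Ex → ℕ
  | .reg _ => 1
  | .con _ => 1
  | .add a b => a.cost + b.cost + 1
  | .sub a b => a.cost + b.cost + 1
  | .mul a b => a.cost + b.cost + 1
  | .div a b => a.cost + b.cost + 1

/-- programs: assignments, output, composition, case distinction and loops (while an expression is positive) -/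
inductive Prg : Type
  | skip
  | set (i : ℕ) (e : Ex)
  | out (e : Ex)
  | seq (p q : Prg)
  | ite (e : Ex) (p q : Prg)
  | loop (e : Ex) (p : Prg)

/-- the contents of the registers, and the numbers written so far -/
structure St where
  r : ℕ → ℝ
  o : List ℝ

/-- `Run p s s' t`: started in the state `s` the program `p` stops after `t` steps in the state `s'` -/
inductive Run : Prg → St → St → ℕ → Prop
  | skip (s : St) : Run .skip s s 1
  | set (i : ℕ) (e : Ex) (s : St) : Run (.set i e) s ⟨Function.update s.r i (e.val s.r), s.o⟩ (e.cost + 1)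
  | out (e : Ex) (s : St) : Run (.out e) s ⟨s.r, s.o ++ [e.val s.r]⟩ (e.cost + 1)
  | seq {p q : Prg} {s s' s'' : St} {t t' : ℕ} : Run p s s' t → Run q s' s'' t' → Run (.seq p q) s s'' (t + t')
  | pos {e : Ex} {p q : Prg} {s s' : St} {t : ℕ} : 0 < e.val s.r → Run p s s' t →
      Run (.ite e p q) s s' (e.cost + t + 1)
  | neg {e : Ex} {p q : Prg} {s s' : St} {t : ℕ} : ¬ 0 < e.val s.r → Run q s s' t →
      Run (.ite e p q) s s' (e.cost + t + 1)
  | stop {e : Ex} {p : Prg} {s : St} : ¬ 0 < e.val s.r → Run (.loop e p) s s (e.cost + 1)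
  | again {e : Ex} {p : Prg} {s s' s'' : St} {t t' : ℕ} : 0 < e.val s.r → Run p s s' t →
      Run (.loop e p) s' s'' t' → Run (.loop e p) s s'' (e.cost + t + t' + 1)

/-- the initial state with input `N` (in the register `0`) -/
def start (N : ℕ) : St := ⟨Function.update (fun _ => 0) 0 (N : ℝ), []⟩

/-! ## Configurations on the sphere -/

/-- the three-dimensional Euclidean space -/
abbrev E3 : Type := EuclideanSpace ℝ (Fin 3)

/-- configurations of pairwise different points of the unit sphere -/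
def Conf {N : ℕ} (ω : Fin N → E3) : Prop := Function.Injective ω ∧ ∀ i, ‖ω i‖ = 1

/-- the logarithmic energy (sum over the ordered pairs) -/
noncomputable def energy {N : ℕ} (ω : Fin N → E3) : ℝ :=
  - ∑ i, ∑ j, if i ≠ j then Real.log ‖ω i - ω j‖ else 0

/-- the list of the coordinates -/
def coords {N : ℕ} (ω : Fin N → E3) : List ℝ := (List.ofFn ω).flatMap fun p => [p 0, p 1, p 2]

/-- points of the sphere from two parameters and a sign -/
noncomputable def pt (u v e : ℝ) : E3 :=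
  !₂[2 * u / (1 + u ^ 2 + v ^ 2), 2 * v / (1 + u ^ 2 + v ^ 2), e * (1 - u ^ 2 - v ^ 2) / (1 + u ^ 2 + v ^ 2)]

/-! ## Parts -/

/-- SM-GEO. (1), (2): compute the squares of the norms (`EuclideanSpace.norm_eq`, `Fin.sum_univ_three`,
`field_simp`, `ring`); (3) `u = x 0 / (1 + |x 2|)`, `v = x 1 / (1 + |x 2|)`, `e` the sign of `x 2`:
`u² + v² = (1 - |x 2|) / (1 + |x 2|)`, so `1 + u² + v² = 2 / (1 + |x 2|)`, `1 - u² - v² = 2 |x 2| / (1 + |x 2|)`. -/
def S_GEO : Prop :=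
  (∀ u v e : ℝ, e = 1 ∨ e = -1 → ‖pt u v e‖ = 1) ∧
  (∀ u v u' v' e : ℝ, e = 1 ∨ e = -1 → ‖pt u v e - pt u' v' e‖ ^ 2 =
    4 * ((u - u') ^ 2 + (v - v') ^ 2) / ((1 + u ^ 2 + v ^ 2) * (1 + u' ^ 2 + v' ^ 2))) ∧
  ∀ x : E3, ‖x‖ = 1 → ∃ u v e : ℝ, |u| ≤ 1 ∧ |v| ≤ 1 ∧ (e = 1 ∨ e = -1) ∧ pt u v e = x

/-- SM-UP. `ω j = pt (j / N) 0 1`: by `S_GEO` (2), `‖ω i - ω j‖² = 4 (i/N - j/N)² / ((1 + ..) (1 + ..)) ≥ (1 / N)²`, so
`- log ‖ω i - ω j‖ ≤ log N ≤ N`, and there are at most `N²` ordered pairs. -/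
def S_UP : Prop := S_GEO → ∀ N : ℕ, 1 ≤ N → ∃ ω : Fin N → E3, Conf ω ∧ energy ω ≤ (N : ℝ) ^ 3

/-- SM-SEP. All distances are at most `2`, so each term `- log d` is at least `- log 2 ≥ -1`. (1) sum over at most `N²`
pairs; (2) the terms `(i, j)` and `(j, i)` are equal to `- log d`, the others at least `-1`:
`-2 log d - N² ≤ energy ω ≤ N³ + 1`, so `log d ≥ - N³`, `d ≥ exp (- N³) ≥ 4 ^ (- N³)`. -/
def S_SEP : Prop :=
  (∀ (N : ℕ) (ω : Fin N → E3), Conf ω → -(N : ℝ) ^ 2 ≤ energy ω) ∧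
  ∀ (N : ℕ) (ω : Fin N → E3), 2 ≤ N → Conf ω → energy ω ≤ (N : ℝ) ^ 3 + 1 →
    ∀ i j, i ≠ j → 1 / 4 ^ (N ^ 3) ≤ ‖ω i - ω j‖

/-- SM-PER (perturbation). `d' ≥ d - 2 δ ≥ d (1 - 2 δ / η)`, `2 δ / η ≤ 1 / 2`,
`- log d' ≤ - log d - log (1 - 2 δ / η) ≤ - log d + 4 δ / η` (`Real.one_sub_inv_le_log_of_pos`); at most `N²` pairs. -/
def S_PER : Prop := ∀ (N : ℕ) (ω ω' : Fin N → E3) (η δ : ℝ), 1 ≤ N → Conf ω → 0 < η →
  (∀ i j, i ≠ j → η ≤ ‖ω i - ω j‖) → 8 * (N : ℝ) ^ 2 * δ ≤ η → (∀ i, ‖ω' i - ω i‖ ≤ δ) → (∀ i, ‖ω' i‖ = 1) →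
    Conf ω' ∧ energy ω' ≤ energy ω + 1 / 2

/-- SM-RND. `a = min ⌊(u + 1) / 2 * 2 ^ L⌋₊ (2 ^ L - 1)`. -/
def S_RND : Prop := ∀ (u : ℝ) (L : ℕ), |u| ≤ 1 → ∃ a : ℕ, a < 2 ^ L ∧ |2 * a / 2 ^ L - 1 - u| ≤ 2 / 2 ^ L

/-- number of bits of one number -/
def LL (N : ℕ) : ℕ := 16 * N ^ 3

/-- SM-APX. Assembly: the set of the energies of the configurations of `N` points is nonempty and bounded below
(`S_UP`, `S_SEP`); take `ω` with energy `< inf + 1/2`, so `≤ N³ + 1`; parameters `u, v, e` of the points (`S_GEO`),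
rounded by `S_RND` with `L = 16 N³` bits; `δ = 8 / 2 ^ L` by `S_GEO` (2)
(`‖pt u v e - pt u' v' e‖ ≤ 2 (|u - u'| + |v - v'|)`), `η = 1 / 4 ^ (N³)`, `64 N² ≤ 2 ^ (14 N³)`. -/
def S_APX : Prop := S_GEO → S_UP → S_SEP → S_PER → S_RND → ∀ N : ℕ, 2 ≤ N →
  ∃ (a b : Fin N → ℕ) (e : Fin N → Bool), (∀ i, a i < 2 ^ LL N) ∧ (∀ i, b i < 2 ^ LL N) ∧
    Conf (fun i => pt (2 * a i / 2 ^ LL N - 1) (2 * b i / 2 ^ LL N - 1) (if e i then 1 else -1)) ∧
    ∀ ω : Fin N → E3, Conf ω →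
      energy (fun i => pt (2 * a i / 2 ^ LL N - 1) (2 * b i / 2 ^ LL N - 1) (if e i then 1 else -1)) ≤ energy ω + 1

/-- SM-ENC. `β p = true` iff `p = B N + j`, `j < l N`, `D N j = true` for some `N`, `j` (which are unique);
`X k = ∑' j, β (k + j) (1/4) ^ (j + 1)` (`tsum_eq_zero_add`, comparison with the geometric series: `X k ≤ 1/3`). -/
def S_ENC : Prop := ∀ (B l : ℕ → ℕ) (D : ℕ → ℕ → Bool), (∀ N, B N + l N ≤ B (N + 1)) →
  ∃ (X : ℕ → ℝ) (β : ℕ → Bool), (∀ k, 4 * X k = (if β k then 1 else 0) + X (k + 1)) ∧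
    (∀ k, 0 ≤ X k ∧ X k < 1) ∧ ∀ N j, j < l N → β (B N + j) = D N j

end Pool.Agent.H87.SM
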