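import Pool.Agent.H87.SM.Prog2

/-!
# Assembly
-/

set_option autoImplicit false

namespace Pool.Agent.H87.SM.Prog2

open Pool.Agent.H87.SM

theorem dg_lt (N m i : ℕ) : dg N m i < 2 ^ LL N := Nat.mod_lt _ (by positivity)

theorem cs_cfg (N m : ℕ) (i : Fin N) :
    Prog.cs (LL N) (dg N m (3 * i)) (dg N m (3 * i + 1)) (if dg N m (3 * i + 2) = 0 then 0 else 1) =
      [cfg N m i 0, cfg N m i 1, cfg N m i 2] := by
  by_cases h : dg N m (3 * i + 2) = 0
  · simp [Prog.cs, cfg, pt, h]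
  · simp [Prog.cs, cfg, pt, h]
    ring_nf

theorem final (hPOW : S_POW) (hW : Primrec WW) (hBIT : S_BIT) (hENP : S_ENP) (hCR : S_CR)
    (hOPT : ∀ N : ℕ, 2 ≤ N → Conf (cfg N (WW N)) ∧ ∀ ω : Fin N → E3, Conf ω → energy (cfg N (WW N)) ≤ energy ω + 1) :
    ∃ (c : ℝ) (P : Prg), CompReal c ∧ P.Over ({c} ∪ Set.range (fun n : ℕ => (n : ℝ))) ∧
      ∀ N : ℕ, 2 ≤ N → ∃ (s : St) (t : ℕ) (ω : Fin N → E3),
        Run P (start N) s t ∧ (∀ s' t', Run P (start N) s' t' → s' = s ∧ t' = t) ∧ t ≤ 3000 * N ^ 5 ∧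
        Conf ω ∧ s.o = coords ω ∧
        (∀ i j, ∃ p q : ℤ, 0 < q ∧ |p| ≤ 2 ^ (40 * N ^ 3) ∧ q ≤ 2 ^ (40 * N ^ 3) ∧ ω i j = p / q) ∧
        (∀ ω' : Fin N → E3, Conf ω' → energy ω ≤ energy ω' + 1) ∧
        energy ω - (⨅ ω' : {ω' : Fin N → E3 // Conf ω'}, energy ω'.1) ≤ 2 * Real.log N := by
  have pB : Primrec (fun N : ℕ => 48 * N ^ 5) :=
    Primrec.nat_mul.comp (Primrec.const 48) (hPOW.1.comp Primrec.id (Primrec.const 5))
  have pL : Primrec LL :=
    Primrec.nat_mul.comp (Primrec.const 16) (hPOW.1.comp Primrec.id (Primrec.const 3))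
  have pl : Primrec (fun N : ℕ => 3 * N * LL N) :=
    Primrec.nat_mul.comp (Primrec.nat_mul.comp (Primrec.const 3) Primrec.id) pL
  obtain ⟨X, β, x0, x1, x2, x3⟩ := hENP (fun N => 48 * N ^ 5) (fun N => 3 * N * LL N)
    (fun N j => (dg N (WW N) (j / LL N)).testBit (LL N - 1 - j % LL N)) (by
      intro N
      simp only [LL]
      nlinarith [Nat.zero_le N, Nat.zero_le (N ^ 2), Nat.zero_le (N ^ 3), Nat.zero_le (N ^ 4), Nat.zero_le (N ^ 5)])
    (by
      intro N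
      have : N ≤ N ^ 5 := Nat.le_self_pow (by norm_num) N
      show N ≤ 48 * N ^ 5
      omega)
    pB pl (hBIT hPOW hW)
  have hE : Prog.Enc X β := ⟨x1, x2⟩
  have hS : ∀ n : ℕ, (n : ℝ) ∈ ({X 0} ∪ Set.range (fun n : ℕ => (n : ℝ)) : Set ℝ) := fun n => Or.inr ⟨n, rfl⟩
  refine ⟨X 0, prog (X 0), hCR X β x0 x1 x2, consts _ _ (Or.inl rfl) (by exact_mod_cast hS 0)
    (by exact_mod_cast hS 1) (by exact_mod_cast hS 2) (by exact_mod_cast hS 4) (by exact_mod_cast hS 16)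
    (by exact_mod_cast hS 48), fun N hN => ?_⟩
  have hLpos : 0 < LL N := by
    unfold LL
    positivity
  have hblk : ∀ m, m < 3 * N → ∀ j < LL N,
      β (48 * N ^ 5 + m * LL N + j) = (dg N (WW N) m).testBit (LL N - 1 - j) := by
    intro m hm j hj
    have e1 : m * LL N + j < 3 * N * LL N := by
      have : (m + 1) * LL N ≤ 3 * N * LL N := Nat.mul_le_mul_right _ hm
      nlinarith
    have e2 : (m * LL N + j) / LL N = m := by
      rw [Nat.div_eq_of_lt_le]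
      · exact Nat.le_add_right _ _
      · nlinarith
    have e3 : (m * LL N + j) % LL N = j := by
      rw [Nat.add_comm, Nat.add_mul_mod_self_right, Nat.mod_eq_of_lt hj]
    have := x3 N (m * LL N + j) e1
    simp only [e2, e3] at this
    rw [add_assoc]
    exact this
  obtain ⟨s, t, h1, h2, h4⟩ := run_all hE N hN (fun m => dg N (WW N) m) (fun m => dg_lt N _ m) hblk
  obtain ⟨h3, h5⟩ := hOPT N hN
  refine ⟨s, t, cfg N (WW N), h1, fun s' t' h' => Prog.det h1 s' t' h', h2, h3, ?_, fun i j => ?_, h5, ?_⟩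
  · rw [h4, coords, List.ofFn_eq_map, List.flatMap_map, ← List.map_coe_finRange_eq_range, List.flatMap_map]
    apply List.flatMap_congr
    intro i _
    exact cs_cfg N _ i
  · obtain ⟨p, q, q1, q2, q3, q4⟩ := Prog.rational (LL N) (dg N (WW N) (3 * i)) (dg N (WW N) (3 * i + 1))
      (decide (dg N (WW N) (3 * i + 2) ≠ 0)) (dg_lt N _ _) (dg_lt N _ _) j
    have hexp : 2 * LL N + 2 ≤ 40 * N ^ 3 := by
      unfold LL
      have : 1 ≤ N ^ 3 := Nat.one_le_pow _ _ (by omega)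
      omega
    have hle : (2 : ℤ) ^ (2 * LL N + 2) ≤ 2 ^ (40 * N ^ 3) := pow_le_pow_right₀ (by norm_num) hexp
    refine ⟨p, q, q1, q2.trans hle, q3.trans hle, ?_⟩
    rw [← q4, cfg]
    by_cases h : dg N (WW N) (3 * i + 2) = 0
    · simp [h]
    · simp [h]
  · have : Nonempty {ω' : Fin N → E3 // Conf ω'} := ⟨⟨cfg N (WW N), h3⟩⟩
    have hle : energy (cfg N (WW N)) - 1 ≤ ⨅ ω' : {ω' : Fin N → E3 // Conf ω'}, energy ω'.1 :=
      le_ciInf fun ω' => by linarith [h5 ω'.1 ω'.2]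
    have hlog : Real.log 2 ≤ Real.log N := Real.log_le_log (by norm_num) (by exact_mod_cast hN)
    have h2' : (1 : ℝ) / 2 < Real.log 2 := by linarith [Real.log_two_gt_d9]
    linarith

end Pool.Agent.H87.SM.Prog2
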