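import Pool.Agent.H87.SM.Defs

/-! # SM-GEO (helper1): points of the sphere from two parameters and a sign -/

set_option autoImplicit false

namespace Pool.Agent.H87.SM

namespace GEO1

theorem nsq (x : E3) : ‖x‖ ^ 2 = x 0 ^ 2 + x 1 ^ 2 + x 2 ^ 2 := by
  rw [EuclideanSpace.norm_sq_eq, Fin.sum_univ_three]
  simp only [Real.norm_eq_abs, sq_abs]

theorem pt0 (u v e : ℝ) : pt u v e 0 = 2 * u / (1 + u ^ 2 + v ^ 2) := by simp [pt]

theorem pt1 (u v e : ℝ) : pt u v e 1 = 2 * v / (1 + u ^ 2 + v ^ 2) := by simp [pt]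

theorem pt2 (u v e : ℝ) :
    pt u v e 2 = e * (1 - u ^ 2 - v ^ 2) / (1 + u ^ 2 + v ^ 2) := by simp [pt]

theorem esq {e : ℝ} (he : e = 1 ∨ e = -1) : e ^ 2 = 1 := by
  rcases he with rfl | rfl <;> norm_num

end GEO1

open GEO1

theorem geo : S_GEO := by
  refine ⟨?_, ?_, ?_⟩
  · intro u v e he
    have hD : 0 < 1 + u ^ 2 + v ^ 2 := by positivity
    have h : ‖pt u v e‖ ^ 2 = 1 := by
      rw [nsq, pt0, pt1, pt2, div_pow, div_pow, div_pow, mul_pow e, esq he]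
      field_simp
      ring
    have h0 := norm_nonneg (pt u v e)
    nlinarith
  · intro u v u' v' e he
    have hD : 0 < 1 + u ^ 2 + v ^ 2 := by positivity
    have hD' : 0 < 1 + u' ^ 2 + v' ^ 2 := by positivity
    rw [nsq]
    simp only [PiLp.sub_apply]
    rw [pt0, pt1, pt2, pt0, pt1, pt2]
    have h1 : (e * (1 - u ^ 2 - v ^ 2) / (1 + u ^ 2 + v ^ 2) -
        e * (1 - u' ^ 2 - v' ^ 2) / (1 + u' ^ 2 + v' ^ 2)) ^ 2 =
        ((1 - u ^ 2 - v ^ 2) / (1 + u ^ 2 + v ^ 2) -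
          (1 - u' ^ 2 - v' ^ 2) / (1 + u' ^ 2 + v' ^ 2)) ^ 2 := by
      rw [mul_div_assoc, mul_div_assoc, ← mul_sub, mul_pow, esq he, one_mul]
    rw [h1]
    field_simp
    ring
  · intro x hx
    have hn : x 0 ^ 2 + x 1 ^ 2 + x 2 ^ 2 = 1 := by rw [← nsq, hx]; norm_num
    obtain ⟨z, hz⟩ : ∃ z, z = |x 2| := ⟨_, rfl⟩
    have hz0 : 0 ≤ z := hz ▸ abs_nonneg _
    have hz2 : z ^ 2 = x 2 ^ 2 := by rw [hz, sq_abs]
    have hz1 : 0 < 1 + z := by linarith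
    obtain ⟨e, he, hez⟩ : ∃ e : ℝ, (e = 1 ∨ e = -1) ∧ e * z = x 2 := by
      rcases le_total 0 (x 2) with h | h
      · exact ⟨1, Or.inl rfl, by rw [hz, abs_of_nonneg h, one_mul]⟩
      · exact ⟨-1, Or.inr rfl, by rw [hz, abs_of_nonpos h]; ring⟩
    have hx0 : x 0 ^ 2 ≤ 1 := by nlinarith [sq_nonneg (x 1), sq_nonneg (x 2)]
    have hx1 : x 1 ^ 2 ≤ 1 := by nlinarith [sq_nonneg (x 0), sq_nonneg (x 2)]
    have hbd : ∀ w : ℝ, w ^ 2 ≤ 1 → |w / (1 + z)| ≤ 1 := by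
      intro w hw
      rw [abs_div, abs_of_pos hz1, div_le_one hz1]
      have : |w| ≤ 1 := (sq_le_one_iff_abs_le_one w).1 hw
      linarith
    have hsum : (x 0 / (1 + z)) ^ 2 + (x 1 / (1 + z)) ^ 2 = (1 - z) / (1 + z) := by
      rw [div_pow, div_pow, ← add_div, div_eq_div_iff (by positivity) (by positivity)]
      have h1 : x 0 ^ 2 + x 1 ^ 2 = (1 - z) * (1 + z) := by nlinarith
      rw [h1]
      ring
    have hD : 1 + (x 0 / (1 + z)) ^ 2 + (x 1 / (1 + z)) ^ 2 = 2 / (1 + z) := by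
      rw [add_assoc, hsum]
      field_simp
      ring
    have hE : 1 - (x 0 / (1 + z)) ^ 2 - (x 1 / (1 + z)) ^ 2 = 2 * z / (1 + z) := by
      rw [sub_sub, hsum]
      field_simp
      ring
    refine ⟨x 0 / (1 + z), x 1 / (1 + z), e, hbd _ hx0, hbd _ hx1, he, ?_⟩
    ext i
    fin_cases i
    · show pt _ _ _ 0 = x 0
      rw [pt0, hD]
      field_simp
    · show pt _ _ _ 1 = x 1
      rw [pt1, hD]
      field_simp
    · show pt _ _ _ 2 = x 2
      rw [pt2, hD, hE, ← hez]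
      field_simp

end Pool.Agent.H87.SM
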