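import Pool.Agent.H87.SM.Defs

/-! # SM-PER: perturbation of a configuration -/

set_option autoImplicit false

namespace Pool.Agent.H87.SM

theorem per : S_PER := by
  intro N ω ω' η δ hN hω hη hsep hδ hclose hunit
  have hN' : (1 : ℝ) ≤ N := by exact_mod_cast hN
  have hδ0 : 0 ≤ δ := le_trans (norm_nonneg _) (hclose ⟨0, hN⟩)
  have hNN : (1 : ℝ) ≤ (N : ℝ) ^ 2 := by nlinarith
  have hδ1 : 8 * δ ≤ η := by nlinarith
  have hd : ∀ i j, i ≠ j → ‖ω i - ω j‖ - 2 * δ ≤ ‖ω' i - ω' j‖ := by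
    intro i j _
    have h1 : ω i - ω j = (ω' i - ω' j) - (ω' i - ω i) + (ω' j - ω j) := by abel
    have h2 : ‖ω i - ω j‖ ≤ ‖ω' i - ω' j‖ + ‖ω' i - ω i‖ + ‖ω' j - ω j‖ := by
      rw [h1]
      exact (norm_add_le _ _).trans (add_le_add_left (norm_sub_le _ _) _)
    linarith [hclose i, hclose j]
  have hpos : ∀ i j, i ≠ j → 0 < ‖ω' i - ω' j‖ := by
    intro i j hij
    linarith [hd i j hij, hsep i j hij]
  have hlog : ∀ i j, i ≠ j →
      Real.log ‖ω i - ω j‖ - 1 / (2 * (N : ℝ) ^ 2) ≤ Real.log ‖ω' i - ω' j‖ := by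
    intro i j hij
    set d := ‖ω i - ω j‖ with hdd
    have hd1 : η ≤ d := hsep i j hij
    have hd0 : 0 < d := lt_of_lt_of_le hη hd1
    have h1 := hd i j hij
    have hx : 0 < 1 - 2 * δ / d := by
      rw [sub_pos, div_lt_one hd0]
      linarith
    have h2 : d * (1 - 2 * δ / d) = d - 2 * δ := by
      field_simp
    have h3 : Real.log (d * (1 - 2 * δ / d)) ≤ Real.log ‖ω' i - ω' j‖ := by
      apply Real.log_le_log (by positivity)
      rw [h2]
      exact h1
    rw [Real.log_mul hd0.ne' hx.ne'] at h3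
    have h4 := Real.one_sub_inv_le_log_of_pos hx
    have h5 : (1 - 2 * δ / d)⁻¹ - 1 ≤ 1 / (2 * (N : ℝ) ^ 2) := by
      have h6 : 2 * δ / d ≤ 1 / (4 * (N : ℝ) ^ 2) := by
        rw [div_le_div_iff₀ hd0 (by positivity)]
        nlinarith
      have h7 : 1 / (4 * (N : ℝ) ^ 2) ≤ 1 / 4 := by
        apply div_le_div_of_nonneg_left (by norm_num) (by norm_num)
        linarith
      have h8 : (1 - 2 * δ / d)⁻¹ - 1 = (2 * δ / d) / (1 - 2 * δ / d) := by
        rw [eq_div_iff hx.ne', sub_mul, inv_mul_cancel₀ hx.ne']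
        ring
      have h9 : 0 ≤ 2 * δ / d := by positivity
      rw [h8, div_le_iff₀ hx]
      have h10 : 1 / (2 * (N : ℝ) ^ 2) = 2 * (1 / (4 * (N : ℝ) ^ 2)) := by
        field_simp
        norm_num
      rw [h10]
      nlinarith
    linarith
  refine ⟨⟨?_, hunit⟩, ?_⟩
  · intro i j hij
    by_contra hne
    have := hpos i j hne
    rw [hij, sub_self, norm_zero] at this
    exact lt_irrefl _ this
  · unfold energy
    have hsum : ∑ i, ∑ j, ((if i ≠ j then Real.log ‖ω i - ω j‖ else 0) - 1 / (2 * (N : ℝ) ^ 2)) ≤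
        ∑ i, ∑ j, (if i ≠ j then Real.log ‖ω' i - ω' j‖ else 0) := by
      refine Finset.sum_le_sum fun i _ => Finset.sum_le_sum fun j _ => ?_
      by_cases hij : i ≠ j
      · rw [if_pos hij, if_pos hij]
        exact hlog i j hij
      · rw [if_neg hij, if_neg hij]
        have : 0 ≤ 1 / (2 * (N : ℝ) ^ 2) := by positivity
        linarith
    have hc : ∑ _i : Fin N, ∑ _j : Fin N, 1 / (2 * (N : ℝ) ^ 2) = 1 / 2 := by
      simp only [Finset.sum_const, Finset.card_univ, Fintype.card_fin, nsmul_eq_mul]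
      field_simp
    simp only [Finset.sum_sub_distrib] at hsum
    rw [hc] at hsum
    linarith

end Pool.Agent.H87.SM
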