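import Pool.Agent.H87.SM.Defs

/-!
# The program and its verification
-/

set_option autoImplicit false

namespace Pool.Agent.H87.SM.Prog

open Pool.Agent.H87.SM

/-- read one bit of the number in the register `1` to the register `3` -/
noncomputable def bit : Prg :=
  .seq (.set 1 (.mul (.con 4) (.reg 1)))
    (.ite (.sub (.con 1) (.reg 1)) (.set 3 (.con 0)) (.seq (.set 3 (.con 1)) (.set 1 (.sub (.reg 1) (.con 1)))))

/-- decrease the register `i` by one -/
noncomputable def dec (i : ℕ) : Prg := .set i (.sub (.reg i) (.con 1))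

/-- skip bits, the number of them is in the register `2` -/
noncomputable def skp : Prg := .loop (.reg 2) (.seq bit (dec 2))

/-- read one bit and add it to the number in the register `4` -/
noncomputable def dig : Prg :=
  .seq bit (.seq (.set 4 (.add (.mul (.con 2) (.reg 4)) (.reg 3))) (.seq (.set 5 (.mul (.con 2) (.reg 5))) (dec 2)))

/-- read a number with `16 N ^ 3` bits to the register `4`; the register `5` becomes `2 ^ (16 N ^ 3)` -/
noncomputable def num : Prg :=
  .seq (.set 2 (.mul (.con 16) (.mul (.reg 0) (.mul (.reg 0) (.reg 0)))))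
    (.seq (.set 4 (.con 0)) (.seq (.set 5 (.con 1)) (.loop (.reg 2) dig)))

/-- `2 w / 2 ^ L - 1` -/
noncomputable def par : Ex := .sub (.div (.mul (.con 2) (.reg 4)) (.reg 5)) (.con 1)

/-- `1 + u² + v²` -/
noncomputable def den : Ex := .add (.add (.con 1) (.mul (.reg 7) (.reg 7))) (.mul (.reg 8) (.reg 8))

/-- one point -/
noncomputable def point : Prg :=
  .seq num (.seq (.set 7 par) (.seq num (.seq (.set 8 par) (.seq num (.seq
    (.out (.div (.mul (.con 2) (.reg 7)) den)) (.seq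
    (.out (.div (.mul (.con 2) (.reg 8)) den)) (.seq
    (.out (.div (.mul (.sub (.mul (.con 2) (.reg 4)) (.con 1))
      (.sub (.sub (.con 1) (.mul (.reg 7) (.reg 7))) (.mul (.reg 8) (.reg 8)))) den))
    (dec 6))))))))

/-- the program with the constant `c` -/
noncomputable def prog (c : ℝ) : Prg :=
  .seq (.set 1 (.con c)) (.seq
    (.set 2 (.mul (.con 48) (.mul (.reg 0) (.mul (.reg 0) (.mul (.reg 0) (.mul (.reg 0) (.reg 0)))))))
    (.seq skp (.seq (.set 6 (.reg 0)) (.loop (.reg 6) point))))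

/-- counting loops -/
theorem count (c : ℕ) (p : Prg) (M T : ℕ) (I : ℕ → St → Prop)
    (h : ∀ j m s, j + (m + 1) = M → s.r c = ((m + 1 : ℕ) : ℝ) → I j s →
      ∃ s' t, Run p s s' t ∧ t ≤ T ∧ s'.r c = (m : ℝ) ∧ I (j + 1) s') :
    ∀ m j s, j + m = M → s.r c = (m : ℝ) → I j s →
      ∃ s' t, Run (.loop (.reg c) p) s s' t ∧ t ≤ m * (T + 2) + 2 ∧ I M s' := by
  intro m
  induction m with
  | zero =>
    intro j s hj hs hI
    refine ⟨s, _, Run.stop ?_, ?_, ?_⟩
    · show ¬ 0 < s.r c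
      rw [hs]
      simp
    · simp [Ex.cost]
    · have : j = M := by omega
      rw [← this]
      exact hI
  | succ m ih =>
    intro j s hj hs hI
    obtain ⟨s', t, h1, h2, h3, h4⟩ := h j m s (by omega) hs hI
    obtain ⟨s'', t', h5, h6, h7⟩ := ih (j + 1) s' (by omega) h3 h4
    refine ⟨s'', _, Run.again ?_ h1 h5, ?_, h7⟩
    · show 0 < s.r c
      rw [hs]
      positivity
    · simp only [Ex.cost]
      have : (m + 1) * (T + 2) + 2 = m * (T + 2) + 2 + (T + 2) := by ring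
      omega

/-- what is known of the encoding -/
structure Enc (X : ℕ → ℝ) (β : ℕ → Bool) : Prop where
  step : ∀ k, 4 * X k = (if β k then 1 else 0) + X (k + 1)
  rng : ∀ k, 0 ≤ X k ∧ X k < 1

theorem run_bit {X : ℕ → ℝ} {β : ℕ → Bool} (hE : Enc X β) (s : St) (k : ℕ) (h : s.r 1 = X k) :
    ∃ s' t, Run bit s s' t ∧ t ≤ 14 ∧ s'.r 1 = X (k + 1) ∧ s'.r 3 = (if β k then 1 else 0) ∧
      (∀ i, i ≠ 1 → i ≠ 3 → s'.r i = s.r i) ∧ s'.o = s.o := by
  obtain ⟨h0, h1⟩ := hE.rng (k + 1)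
  have hk := hE.step k
  cases hb : β k with
  | false =>
    rw [hb] at hk
    simp only [Bool.false_eq_true, if_false, zero_add] at hk
    refine ⟨_, _, Run.seq (Run.set 1 _ s) (Run.pos ?_ (Run.set 3 _ _)), ?_, ?_, ?_, ?_, rfl⟩
    · simp only [Ex.val, Function.update_self]
      rw [h, hk]
      linarith
    · simp [Ex.cost]
    · simp only [Ex.val]
      rw [Function.update_of_ne (by norm_num), Function.update_self, h, hk]
    · simp [Ex.val]
    · intro i hi1 hi3
      simp only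
      rw [Function.update_of_ne hi3, Function.update_of_ne hi1]
  | true =>
    rw [hb] at hk
    simp only [if_true] at hk
    refine ⟨_, _, Run.seq (Run.set 1 _ s) (Run.neg ?_ (Run.seq (Run.set 3 _ _) (Run.set 1 _ _))), ?_, ?_, ?_, ?_, rfl⟩
    · simp only [Ex.val, Function.update_self]
      rw [h, hk]
      linarith
    · simp [Ex.cost]
    · simp only [Ex.val]
      rw [Function.update_self, Function.update_of_ne (by norm_num), Function.update_self, h, hk]
      ring
    · simp only [Ex.val]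
      rw [Function.update_of_ne (by norm_num), Function.update_self]
      simp
    · intro i hi1 hi3
      simp only
      rw [Function.update_of_ne hi1, Function.update_of_ne hi3, Function.update_of_ne hi1]

theorem run_skp {X : ℕ → ℝ} {β : ℕ → Bool} (hE : Enc X β) (s : St) (M : ℕ) (h : s.r 1 = X 0)
    (h2 : s.r 2 = (M : ℝ)) :
    ∃ s' t, Run skp s s' t ∧ t ≤ M * 20 + 2 ∧ s'.r 1 = X M ∧ (∀ i, 3 < i → s'.r i = s.r i) ∧
      s'.r 0 = s.r 0 ∧ s'.o = s.o := by
  obtain ⟨s', t, a1, a2, a3⟩ := count 2 (.seq bit (dec 2)) M 18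
    (fun j s' => s'.r 1 = X j ∧ (∀ i, 3 < i → s'.r i = s.r i) ∧ s'.r 0 = s.r 0 ∧ s'.o = s.o)
    (by
      intro j m s₁ _ hc ⟨b1, b2, b3, b4⟩
      obtain ⟨s₂, t, c1, c2, c3, _, c5, c6⟩ := run_bit hE s₁ j b1
      refine ⟨_, _, Run.seq c1 (Run.set 2 _ s₂), ?_, ?_, ?_, ?_, ?_, ?_⟩
      · simp only [Ex.cost]
        omega
      · simp only [Ex.val, Function.update_self]
        rw [c5 2 (by norm_num) (by norm_num), hc]
        push_cast
        ring
      · simp only
        rw [Function.update_of_ne (by norm_num), c3]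
      · intro i hi
        simp only
        rw [Function.update_of_ne (by omega), c5 i (by omega) (by omega), b2 i hi]
      · simp only
        rw [Function.update_of_ne (by norm_num), c5 0 (by norm_num) (by norm_num), b3]
      · show s₂.o = s.o
        rw [c6, b4])
    M 0 s (by omega) h2 ⟨h, fun _ _ => rfl, rfl, rfl⟩
  exact ⟨s', t, a1, a2, a3.1, a3.2.1, a3.2.2.1, a3.2.2.2⟩

theorem div_step (W m : ℕ) : W / 2 ^ m = 2 * (W / 2 ^ (m + 1)) + (if W.testBit m then 1 else 0) := by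
  have h1 : W / 2 ^ (m + 1) = W / 2 ^ m / 2 := by
    rw [pow_succ, Nat.div_div_eq_div_mul]
  rw [h1, Nat.testBit_eq_decide_div_mod_eq]
  generalize W / 2 ^ m = a
  by_cases h : a % 2 = 1
  · simp only [h, decide_true, if_true]
    omega
  · simp only [h, decide_false, Bool.false_eq_true, if_false]
    omega

theorem run_num {X : ℕ → ℝ} {β : ℕ → Bool} (hE : Enc X β) (s : St) (N k W : ℕ) (h : s.r 1 = X k)
    (h0 : s.r 0 = (N : ℝ)) (hW : W < 2 ^ LL N)
    (hb : ∀ j < LL N, β (k + j) = W.testBit (LL N - 1 - j)) :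
    ∃ s' t, Run num s s' t ∧ t ≤ LL N * 30 + 14 ∧ s'.r 1 = X (k + LL N) ∧ s'.r 4 = (W : ℝ) ∧
      s'.r 5 = 2 ^ LL N ∧ (∀ i, 5 < i → s'.r i = s.r i) ∧ s'.r 0 = s.r 0 ∧ s'.o = s.o := by
  have hL : ∀ r : ℕ → ℝ, r 0 = (N : ℝ) →
      (Ex.mul (.con 16) (.mul (.reg 0) (.mul (.reg 0) (.reg 0)))).val r = ((LL N : ℕ) : ℝ) := by
    intro r hr
    simp only [Ex.val, hr, LL]
    push_cast
    ring
  obtain ⟨s', t, a1, a2, a3⟩ := count 2 dig (LL N) 28
    (fun j s' => s'.r 1 = X (k + j) ∧ s'.r 4 = ((W / 2 ^ (LL N - j) : ℕ) : ℝ) ∧ s'.r 5 = 2 ^ j ∧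
      (∀ i, 5 < i → s'.r i = s.r i) ∧ s'.r 0 = s.r 0 ∧ s'.o = s.o)
    (by
      intro j m s₁ hjm hc ⟨b1, b2, b3, b4, b5, b6⟩
      obtain ⟨s₂, t, c1, c2, c3, c4, c5, c6⟩ := run_bit hE s₁ (k + j) b1
      refine ⟨_, _, Run.seq c1 (Run.seq (Run.set 4 _ s₂) (Run.seq (Run.set 5 _ _) (Run.set 2 _ _))),
        ?_, ?_, ?_, ?_, ?_, ?_, ?_, ?_⟩
      · simp only [Ex.cost]
        omega
      · simp only [Ex.val, Function.update_self]
        rw [Function.update_of_ne (by norm_num), Function.update_of_ne (by norm_num),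
          c5 2 (by norm_num) (by norm_num), hc]
        push_cast
        ring
      · simp only
        rw [Function.update_of_ne (by norm_num), Function.update_of_ne (by norm_num),
          Function.update_of_ne (by norm_num), c3, add_assoc]
      · simp only [Ex.val]
        rw [Function.update_of_ne (by norm_num), Function.update_of_ne (by norm_num),
          Function.update_self, c5 4 (by norm_num) (by norm_num), b2, c4, hb j (by omega)]
        have e1 : LL N - j = (LL N - 1 - j) + 1 := by omega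
        have e2 : LL N - (j + 1) = LL N - 1 - j := by omega
        rw [e2, div_step W (LL N - 1 - j), e1]
        push_cast
        rfl
      · simp only [Ex.val]
        rw [Function.update_of_ne (by norm_num), Function.update_self,
          Function.update_of_ne (by norm_num), c5 5 (by norm_num) (by norm_num), b3]
        ring
      · intro i hi
        simp only
        rw [Function.update_of_ne (by omega), Function.update_of_ne (by omega),
          Function.update_of_ne (by omega), c5 i (by omega) (by omega), b4 i hi]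
      · simp only
        rw [Function.update_of_ne (by norm_num), Function.update_of_ne (by norm_num),
          Function.update_of_ne (by norm_num), c5 0 (by norm_num) (by norm_num), b5]
      · show s₂.o = s.o
        rw [c6, b6])
    (LL N) 0 ⟨Function.update (Function.update (Function.update s.r 2 ((LL N : ℕ) : ℝ)) 4 0) 5 1, s.o⟩
    (by omega)
    (by
      simp only
      rw [Function.update_of_ne (by norm_num), Function.update_of_ne (by norm_num), Function.update_self])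
    ⟨by
      simp only
      rw [Function.update_of_ne (by norm_num), Function.update_of_ne (by norm_num),
        Function.update_of_ne (by norm_num), h, add_zero],
    by
      simp only
      rw [Function.update_of_ne (by norm_num), Function.update_self, Nat.sub_zero, Nat.div_eq_of_lt hW]
      simp,
    by
      simp only
      rw [Function.update_self, pow_zero],
    fun i hi => by
      simp only
      rw [Function.update_of_ne (by omega), Function.update_of_ne (by omega), Function.update_of_ne (by omega)],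
    by
      simp only
      rw [Function.update_of_ne (by norm_num), Function.update_of_ne (by norm_num),
        Function.update_of_ne (by norm_num)], rfl⟩
  have r1 := Run.set 2 (Ex.mul (.con 16) (.mul (.reg 0) (.mul (.reg 0) (.reg 0)))) s
  rw [hL s.r h0] at r1
  refine ⟨s', _, Run.seq r1 (Run.seq (Run.set 4 _ _) (Run.seq (Run.set 5 _ _) a1)), ?_,
    a3.1, ?_, a3.2.2.1, a3.2.2.2.1, a3.2.2.2.2.1, a3.2.2.2.2.2⟩
  · simp only [Ex.cost]
    omega
  · rw [a3.2.1, Nat.sub_self, pow_zero, Nat.div_one]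

/-- the coordinates written for one point -/
noncomputable def cs (L W1 W2 W3 : ℕ) : List ℝ :=
  [2 * (2 * (W1 : ℝ) / 2 ^ L - 1) / (1 + (2 * (W1 : ℝ) / 2 ^ L - 1) ^ 2 + (2 * (W2 : ℝ) / 2 ^ L - 1) ^ 2),
   2 * (2 * (W2 : ℝ) / 2 ^ L - 1) / (1 + (2 * (W1 : ℝ) / 2 ^ L - 1) ^ 2 + (2 * (W2 : ℝ) / 2 ^ L - 1) ^ 2),
   (2 * (W3 : ℝ) - 1) * (1 - (2 * (W1 : ℝ) / 2 ^ L - 1) ^ 2 - (2 * (W2 : ℝ) / 2 ^ L - 1) ^ 2) /
     (1 + (2 * (W1 : ℝ) / 2 ^ L - 1) ^ 2 + (2 * (W2 : ℝ) / 2 ^ L - 1) ^ 2)]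

theorem run_point {X : ℕ → ℝ} {β : ℕ → Bool} (hE : Enc X β) (s : St) (N k W1 W2 W3 : ℕ) (h : s.r 1 = X k)
    (h0 : s.r 0 = (N : ℝ)) (hW1 : W1 < 2 ^ LL N) (hW2 : W2 < 2 ^ LL N) (hW3 : W3 < 2 ^ LL N)
    (hb1 : ∀ j < LL N, β (k + j) = W1.testBit (LL N - 1 - j))
    (hb2 : ∀ j < LL N, β (k + LL N + j) = W2.testBit (LL N - 1 - j))
    (hb3 : ∀ j < LL N, β (k + LL N + LL N + j) = W3.testBit (LL N - 1 - j)) :
    ∃ s' t, Run point s s' t ∧ t ≤ LL N * 90 + 200 ∧ s'.r 6 = s.r 6 - 1 ∧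
      s'.r 1 = X (k + LL N + LL N + LL N) ∧ s'.r 0 = (N : ℝ) ∧ s'.o = s.o ++ cs (LL N) W1 W2 W3 := by
  obtain ⟨s1, t1, a1, a2, a3, a4, a5, a6, a7, a8⟩ := run_num hE s N k W1 h h0 hW1 hb1
  obtain ⟨s2, t2, b1, b2, b3, b4, b5, b6, b7, b8⟩ := run_num hE ⟨Function.update s1.r 7 (par.val s1.r), s1.o⟩
    N (k + LL N) W2 (by simp only; rw [Function.update_of_ne (by norm_num), a3])
    (by simp only; rw [Function.update_of_ne (by norm_num), a7, h0]) hW2 hb2
  obtain ⟨s3, t3, c1, c2, c3, c4, c5, c6, c7, c8⟩ := run_num hE ⟨Function.update s2.r 8 (par.val s2.r), s2.o⟩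
    N (k + LL N + LL N) W3 (by simp only; rw [Function.update_of_ne (by norm_num), b3])
    (by simp only; rw [Function.update_of_ne (by norm_num), b7]; simp only
        rw [Function.update_of_ne (by norm_num), a7, h0]) hW3 hb3
  have v7 : s3.r 7 = 2 * (W1 : ℝ) / 2 ^ LL N - 1 := by
    rw [c6 7 (by norm_num)]
    simp only
    rw [Function.update_of_ne (by norm_num), b6 7 (by norm_num)]
    simp only [Function.update_self, par, Ex.val]
    rw [a4, a5]
  have v8 : s3.r 8 = 2 * (W2 : ℝ) / 2 ^ LL N - 1 := by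
    rw [c6 8 (by norm_num)]
    simp only [Function.update_self, par, Ex.val]
    rw [b4, b5]
  have v6 : s3.r 6 = s.r 6 := by
    rw [c6 6 (by norm_num)]
    simp only
    rw [Function.update_of_ne (by norm_num), b6 6 (by norm_num)]
    simp only
    rw [Function.update_of_ne (by norm_num), a6 6 (by norm_num)]
  have v0 : s3.r 0 = (N : ℝ) := by
    rw [c7]
    simp only
    rw [Function.update_of_ne (by norm_num), b7]
    simp only
    rw [Function.update_of_ne (by norm_num), a7, h0]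
  have vo : s3.o = s.o := by
    rw [c8]
    show s2.o = s.o
    rw [b8]
    show s1.o = s.o
    rw [a8]
  refine ⟨_, _, Run.seq a1 (Run.seq (Run.set 7 _ _) (Run.seq b1 (Run.seq (Run.set 8 _ _) (Run.seq c1
    (Run.seq (Run.out _ _) (Run.seq (Run.out _ _) (Run.seq (Run.out _ _) (Run.set 6 _ _)))))))), ?_, ?_, ?_, ?_, ?_⟩
  · simp only [Ex.cost, par, den]
    omega
  · simp only [Ex.val, Function.update_self]
    rw [v6]
  · simp only
    rw [Function.update_of_ne (by norm_num), c3]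
  · simp only
    rw [Function.update_of_ne (by norm_num), v0]
  · simp only [Ex.val, den, cs]
    rw [v7, v8, c4, vo]
    simp only [pow_two, List.append_assoc, List.cons_append, List.nil_append]

theorem main (hA : ∀ N : ℕ, 2 ≤ N →
    ∃ (a b : Fin N → ℕ) (e : Fin N → Bool), (∀ i, a i < 2 ^ LL N) ∧ (∀ i, b i < 2 ^ LL N) ∧
      Conf (fun i => pt (2 * a i / 2 ^ LL N - 1) (2 * b i / 2 ^ LL N - 1) (if e i then 1 else -1)) ∧
      ∀ ω : Fin N → E3, Conf ω →
        energy (fun i => pt (2 * a i / 2 ^ LL N - 1) (2 * b i / 2 ^ LL N - 1) (if e i then 1 else -1)) ≤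
          energy ω + 1) (hC : S_ENC) :
    ∃ c : ℝ, ∀ N : ℕ, 2 ≤ N → ∃ s t, Run (prog c) (start N) s t ∧ t ≤ 3000 * N ^ 5 ∧
      ∃ ω : Fin N → E3, Conf ω ∧ s.o = coords ω ∧ (∀ ω' : Fin N → E3, Conf ω' → energy ω ≤ energy ω' + 1) ∧
        ∃ (a b : Fin N → ℕ) (e : Fin N → Bool), (∀ i, a i < 2 ^ LL N) ∧ (∀ i, b i < 2 ^ LL N) ∧
          ω = fun i => pt (2 * a i / 2 ^ LL N - 1) (2 * b i / 2 ^ LL N - 1) (if e i then 1 else -1) := by
  classical
  -- the numbers to be encoded
  have hV : ∀ N : ℕ, ∃ V : ℕ → ℕ, 2 ≤ N → ∃ ω : Fin N → E3, (∀ i, V i < 2 ^ LL N) ∧ Conf ω ∧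
      ((∀ ω' : Fin N → E3, Conf ω' → energy ω ≤ energy ω' + 1) ∧
        ∃ (a b : Fin N → ℕ) (e : Fin N → Bool), (∀ i, a i < 2 ^ LL N) ∧ (∀ i, b i < 2 ^ LL N) ∧
          ω = fun i => pt (2 * a i / 2 ^ LL N - 1) (2 * b i / 2 ^ LL N - 1) (if e i then 1 else -1)) ∧
      ∀ i : Fin N, cs (LL N) (V (3 * i)) (V (3 * i + 1)) (V (3 * i + 2)) = [ω i 0, ω i 1, ω i 2] := by
    intro N
    by_cases hN : 2 ≤ N
    · obtain ⟨a, b, e, ha, hb, h1, h2⟩ := hA N hN
      have hL1 : 1 < 2 ^ LL N := by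
        apply Nat.one_lt_two_pow
        unfold LL
        positivity
      refine ⟨fun m => if h : m / 3 < N then (if m % 3 = 0 then a ⟨m / 3, h⟩ else if m % 3 = 1 then b ⟨m / 3, h⟩
        else if e ⟨m / 3, h⟩ then 1 else 0) else 0, fun _ => ⟨_, ?_, h1, ⟨h2, a, b, e, ha, hb, rfl⟩, ?_⟩⟩
      · intro m
        simp only
        split_ifs
        · exact ha _
        · exact hb _
        · exact hL1
        · positivity
        · positivity
      · intro i
        have hi := i.isLt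
        have d0 : 3 * (i : ℕ) / 3 = i := by omega
        have d1 : (3 * (i : ℕ) + 1) / 3 = i := by omega
        have d2 : (3 * (i : ℕ) + 2) / 3 = i := by omega
        have m0 : 3 * (i : ℕ) % 3 = 0 := by omega
        have m1 : (3 * (i : ℕ) + 1) % 3 = 1 := by omega
        have m2 : (3 * (i : ℕ) + 2) % 3 = 2 := by omega
        simp only [d0, d1, d2, m0, m1, m2, hi, dif_pos, if_true, one_ne_zero, if_false, cs, pt]
        cases he : e i
        · simp
        · simp
          ring_nf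
    · exact ⟨fun _ => 0, fun h => absurd h hN⟩
  choose V hV using hV
  obtain ⟨X, β, x1, x2, x3⟩ := hC (fun N => 48 * N ^ 5) (fun N => 3 * N * LL N)
    (fun N j => (V N (j / LL N)).testBit (LL N - 1 - j % LL N)) (by
      intro N
      simp only [LL]
      nlinarith [Nat.zero_le N, Nat.zero_le (N ^ 2), Nat.zero_le (N ^ 3), Nat.zero_le (N ^ 4), Nat.zero_le (N ^ 5)])
  have hE : Enc X β := ⟨x1, x2⟩
  refine ⟨X 0, fun N hN => ?_⟩
  obtain ⟨ω, v1, v2, v3, v4⟩ := hV N hN
  have hLpos : 0 < LL N := by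
    unfold LL
    positivity
  have hblk : ∀ m, m < 3 * N → ∀ j < LL N, β (48 * N ^ 5 + m * LL N + j) = (V N m).testBit (LL N - 1 - j) := by
    intro m hm j hj
    have e1 : m * LL N + j < 3 * N * LL N := by
      have : (m + 1) * LL N ≤ 3 * N * LL N := Nat.mul_le_mul_right _ hm
      nlinarith
    have e2 : (m * LL N + j) / LL N = m := by
      rw [Nat.div_eq_of_lt_le]
      · exact Nat.le_add_right _ _
      · nlinarith
    have e3 : (m * LL N + j) % LL N = j := by
      rw [Nat.add_comm, Nat.add_mul_mod_self_right, Nat.mod_eq_of_lt hj]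
    have := x3 N (m * LL N + j) e1
    simp only [e2, e3] at this
    rw [add_assoc]
    exact this
  -- the run
  obtain ⟨s2, t2, a1, a2, a3, a4, a5, a6⟩ := run_skp hE
    ⟨Function.update (Function.update (start N).r 1 (X 0)) 2 ((48 * N ^ 5 : ℕ) : ℝ), (start N).o⟩ (48 * N ^ 5)
    (by simp only; rw [Function.update_of_ne (by norm_num), Function.update_self])
    (by simp only [Function.update_self])
  obtain ⟨s3, t3, b1, b2, b3⟩ := count 6 point N (LL N * 90 + 200)
    (fun i s' => s'.r 1 = X (48 * N ^ 5 + (3 * i) * LL N) ∧ s'.r 0 = (N : ℝ) ∧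
      s'.o = (List.range i).flatMap (fun i => cs (LL N) (V N (3 * i)) (V N (3 * i + 1)) (V N (3 * i + 2))))
    (by
      intro j m s hjm hc ⟨c1, c2, c3⟩
      obtain ⟨s', t, d1, d2, d3, d4, d5, d6⟩ := run_point hE s N (48 * N ^ 5 + (3 * j) * LL N) (V N (3 * j))
        (V N (3 * j + 1)) (V N (3 * j + 2)) c1 c2 (v1 _) (v1 _) (v1 _) (hblk (3 * j) (by omega))
        (by
          intro i hi
          rw [← hblk (3 * j + 1) (by omega) i hi]
          congr 1
          ring)
        (by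
          intro i hi
          rw [← hblk (3 * j + 2) (by omega) i hi]
          congr 1
          ring)
      refine ⟨s', t, d1, d2, ?_, ?_, d5, ?_⟩
      · rw [d3, hc]
        push_cast
        ring
      · rw [d4]
        congr 1
        ring
      · rw [d6, c3, List.range_succ, List.flatMap_append, List.flatMap_singleton])
    N 0 ⟨Function.update s2.r 6 (N : ℝ), s2.o⟩ (by omega)
    (by simp only [Function.update_self])
    ⟨by
      simp only
      rw [Function.update_of_ne (by norm_num), a3]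
      simp,
    by
      simp only
      rw [Function.update_of_ne (by norm_num), a5]
      simp [start],
    by
      show s2.o = _
      rw [a6]
      simp [start]⟩
  have hs2 : s2.r 0 = (N : ℝ) := by
    rw [a5]
    simp [start]
  have r1 := Run.set 1 (Ex.con (X 0)) (start N)
  have r2 := Run.set 2 (.mul (.con 48) (.mul (.reg 0) (.mul (.reg 0) (.mul (.reg 0) (.mul (.reg 0) (.reg 0))))))
    ⟨Function.update (start N).r 1 (X 0), (start N).o⟩
  have e2 : (Ex.mul (.con 48) (.mul (.reg 0) (.mul (.reg 0) (.mul (.reg 0) (.mul (.reg 0) (.reg 0)))))).val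
      (Function.update (start N).r 1 (X 0)) = ((48 * N ^ 5 : ℕ) : ℝ) := by
    have : Function.update (start N).r 1 (X 0) 0 = (N : ℝ) := by
      rw [Function.update_of_ne (by norm_num)]
      simp [start]
    simp only [Ex.val, this]
    push_cast
    ring
  simp only at r2
  rw [e2] at r2
  have r3 := Run.set 6 (Ex.reg 0) s2
  have e3 : (Ex.reg 0).val s2.r = (N : ℝ) := hs2
  rw [e3] at r3
  refine ⟨s3, _, Run.seq r1 (Run.seq r2 (Run.seq a1 (Run.seq r3 b1))), ?_, ω, v2, ?_, v3⟩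
  · simp only [Ex.cost]
    have hN1 : 1 ≤ N := by omega
    have p1 : N ≤ N ^ 5 := Nat.le_self_pow (by norm_num) N
    have p2 : N ^ 4 ≤ N ^ 5 := Nat.pow_le_pow_right hN1 (by norm_num)
    have p3 : 1 ≤ N ^ 5 := Nat.one_le_pow _ _ hN1
    have p4 : N * (LL N * 90 + 200 + 2) + 2 = 1440 * N ^ 4 + 202 * N + 2 := by
      unfold LL
      ring
    omega
  · rw [b3.2.2, coords, List.ofFn_eq_map, List.flatMap_map, ← List.map_coe_finRange_eq_range, List.flatMap_map]
    apply List.flatMap_congr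
    intro i _
    exact v4 i

/-- runs are unique -/
theorem det {p : Prg} {s s₁ : St} {t₁ : ℕ} (h : Run p s s₁ t₁) : ∀ s₂ t₂, Run p s s₂ t₂ → s₂ = s₁ ∧ t₂ = t₁ := by
  induction h with
  | skip s =>
    intro s₂ t₂ h₂
    cases h₂
    exact ⟨rfl, rfl⟩
  | set i e s =>
    intro s₂ t₂ h₂
    cases h₂
    exact ⟨rfl, rfl⟩
  | out e s =>
    intro s₂ t₂ h₂
    cases h₂
    exact ⟨rfl, rfl⟩
  | seq _ _ ih1 ih2 =>
    intro s₂ t₂ h₂
    cases h₂ with
    | seq a b =>
      obtain ⟨rfl, rfl⟩ := ih1 _ _ a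
      obtain ⟨rfl, rfl⟩ := ih2 _ _ b
      exact ⟨rfl, rfl⟩
  | pos h0 _ ih =>
    intro s₂ t₂ h₂
    cases h₂ with
    | pos _ a =>
      obtain ⟨rfl, rfl⟩ := ih _ _ a
      exact ⟨rfl, rfl⟩
    | neg h' _ => exact absurd h0 h'
  | neg h0 _ ih =>
    intro s₂ t₂ h₂
    cases h₂ with
    | pos h' _ => exact absurd h' h0
    | neg _ a =>
      obtain ⟨rfl, rfl⟩ := ih _ _ a
      exact ⟨rfl, rfl⟩
  | stop h0 =>
    intro s₂ t₂ h₂
    cases h₂ with
    | stop _ => exact ⟨rfl, rfl⟩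
    | again h' _ _ => exact absurd h' h0
  | again h0 _ _ ih1 ih2 =>
    intro s₂ t₂ h₂
    cases h₂ with
    | stop h' => exact absurd h0 h'
    | again _ a b =>
      obtain ⟨rfl, rfl⟩ := ih1 _ _ a
      obtain ⟨rfl, rfl⟩ := ih2 _ _ b
      exact ⟨rfl, rfl⟩

/-- the coordinates are rational numbers with few digits -/
theorem rational (L a b : ℕ) (e : Bool) (ha : a < 2 ^ L) (hb : b < 2 ^ L) (j : Fin 3) :
    ∃ p q : ℤ, 0 < q ∧ |p| ≤ 2 ^ (2 * L + 2) ∧ q ≤ 2 ^ (2 * L + 2) ∧
      pt (2 * (a : ℝ) / 2 ^ L - 1) (2 * (b : ℝ) / 2 ^ L - 1) (if e then 1 else -1) j = p / q := by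
  obtain ⟨M, hM⟩ : ∃ M : ℤ, M = 2 ^ L := ⟨_, rfl⟩
  have hM0 : 0 < M := by rw [hM]; positivity
  have hMR : (2 : ℝ) ^ L = (M : ℝ) := by rw [hM]; push_cast; rfl
  have hMR0 : (0 : ℝ) < (M : ℝ) := by exact_mod_cast hM0
  have ha' : (a : ℤ) < M := by rw [hM]; exact_mod_cast ha
  have hb' : (b : ℤ) < M := by rw [hM]; exact_mod_cast hb
  have ha0 : (0 : ℤ) ≤ a := Int.natCast_nonneg a
  have hb0 : (0 : ℤ) ≤ b := Int.natCast_nonneg b
  obtain ⟨A, hA⟩ : ∃ A : ℤ, A = 2 * a - M := ⟨_, rfl⟩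
  obtain ⟨B, hB⟩ : ∃ B : ℤ, B = 2 * b - M := ⟨_, rfl⟩
  have hA1 : |A| ≤ M := abs_le.2 ⟨by omega, by omega⟩
  have hB1 : |B| ≤ M := abs_le.2 ⟨by omega, by omega⟩
  have hA2 : A ^ 2 ≤ M ^ 2 := sq_le_sq' (abs_le.1 hA1).1 (abs_le.1 hA1).2
  have hB2 : B ^ 2 ≤ M ^ 2 := sq_le_sq' (abs_le.1 hB1).1 (abs_le.1 hB1).2
  have hbd : (2 : ℤ) ^ (2 * L + 2) = 4 * M ^ 2 := by
    rw [hM, pow_add, pow_mul, pow_right_comm]
    ring
  have hq : (0 : ℤ) < M ^ 2 + A ^ 2 + B ^ 2 := by positivity
  have hqR : (0 : ℝ) < (M : ℝ) ^ 2 + (A : ℝ) ^ 2 + (B : ℝ) ^ 2 := by positivity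
  have hu : 2 * (a : ℝ) / 2 ^ L - 1 = (A : ℝ) / M := by
    rw [hMR, hA]
    push_cast
    field_simp
  have hv : 2 * (b : ℝ) / 2 ^ L - 1 = (B : ℝ) / M := by
    rw [hMR, hB]
    push_cast
    field_simp
  have hden : 1 + ((A : ℝ) / M) ^ 2 + ((B : ℝ) / M) ^ 2 = ((M : ℝ) ^ 2 + (A : ℝ) ^ 2 + (B : ℝ) ^ 2) / M ^ 2 := by
    field_simp
  rw [hu, hv, hbd]
  fin_cases j
  · refine ⟨2 * A * M, M ^ 2 + A ^ 2 + B ^ 2, hq, ?_, by linarith [sq_nonneg M], ?_⟩
    · rw [abs_mul, abs_mul, abs_of_pos hM0, abs_of_pos (by norm_num : (0 : ℤ) < 2)]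
      nlinarith
    · show 2 * ((A : ℝ) / M) / (1 + ((A : ℝ) / M) ^ 2 + ((B : ℝ) / M) ^ 2) = _
      rw [hden]
      push_cast
      field_simp
  · refine ⟨2 * B * M, M ^ 2 + A ^ 2 + B ^ 2, hq, ?_, by linarith [sq_nonneg M], ?_⟩
    · rw [abs_mul, abs_mul, abs_of_pos hM0, abs_of_pos (by norm_num : (0 : ℤ) < 2)]
      nlinarith
    · show 2 * ((B : ℝ) / M) / (1 + ((A : ℝ) / M) ^ 2 + ((B : ℝ) / M) ^ 2) = _
      rw [hden]
      push_cast
      field_simp
  · have key : ∀ ε : ℤ, |ε| = 1 → ∃ p q : ℤ, 0 < q ∧ |p| ≤ 4 * M ^ 2 ∧ q ≤ 4 * M ^ 2 ∧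
        (ε : ℝ) * (1 - ((A : ℝ) / M) ^ 2 - ((B : ℝ) / M) ^ 2) / (1 + ((A : ℝ) / M) ^ 2 + ((B : ℝ) / M) ^ 2) =
          p / q := by
      intro ε hε
      refine ⟨ε * (M ^ 2 - A ^ 2 - B ^ 2), M ^ 2 + A ^ 2 + B ^ 2, hq, ?_, by linarith [sq_nonneg M], ?_⟩
      · rw [abs_mul, hε, one_mul, abs_le]
        constructor <;> nlinarith [sq_nonneg A, sq_nonneg B, sq_nonneg M]
      · rw [hden]
        push_cast
        field_simp
    cases e
    · have := key (-1) (by norm_num)
      push_cast at this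
      exact this
    · have := key 1 (by norm_num)
      push_cast at this
      exact this

end Pool.Agent.H87.SM.Prog
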