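import Pool.Agent.H87.SM.Prog
import Pool.Agent.H87.SM.CDefs

/-!
# The program for codes with arbitrary third digits, and its constants
-/

set_option autoImplicit false

namespace Pool.Agent.H87.SM.Prog2

open Pool.Agent.H87.SM

/-- one point -/
noncomputable def point : Prg :=
  .seq Prog.num (.seq (.set 7 Prog.par) (.seq Prog.num (.seq (.set 8 Prog.par) (.seq Prog.num (.seq
    (.ite (.reg 4) (.set 4 (.con 1)) .skip) (.seq
    (.out (.div (.mul (.con 2) (.reg 7)) Prog.den)) (.seq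
    (.out (.div (.mul (.con 2) (.reg 8)) Prog.den)) (.seq
    (.out (.div (.mul (.sub (.mul (.con 2) (.reg 4)) (.con 1))
      (.sub (.sub (.con 1) (.mul (.reg 7) (.reg 7))) (.mul (.reg 8) (.reg 8)))) Prog.den))
    (Prog.dec 6)))))))))

/-- the program with the constant `c` -/
noncomputable def prog (c : ℝ) : Prg :=
  .seq (.set 1 (.con c)) (.seq
    (.set 2 (.mul (.con 48) (.mul (.reg 0) (.mul (.reg 0) (.mul (.reg 0) (.mul (.reg 0) (.reg 0)))))))
    (.seq Prog.skp (.seq (.set 6 (.reg 0)) (.loop (.reg 6) point))))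

/-- the constants of the program -/
theorem consts (c : ℝ) (S : Set ℝ) (hc : c ∈ S) (h0 : (0 : ℝ) ∈ S) (h1 : (1 : ℝ) ∈ S) (h2 : (2 : ℝ) ∈ S)
    (h4 : (4 : ℝ) ∈ S) (h16 : (16 : ℝ) ∈ S) (h48 : (48 : ℝ) ∈ S) : (prog c).Over S := by
  simp [prog, point, Prog.skp, Prog.num, Prog.dig, Prog.bit, Prog.dec, Prog.par, Prog.den, Prg.Over, Ex.Over,
    hc, h0, h1, h2, h4, h16, h48]

theorem run_point {X : ℕ → ℝ} {β : ℕ → Bool} (hE : Prog.Enc X β) (s : St) (N k W1 W2 W3 : ℕ) (h : s.r 1 = X k)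
    (h0 : s.r 0 = (N : ℝ)) (hW1 : W1 < 2 ^ LL N) (hW2 : W2 < 2 ^ LL N) (hW3 : W3 < 2 ^ LL N)
    (hb1 : ∀ j < LL N, β (k + j) = W1.testBit (LL N - 1 - j))
    (hb2 : ∀ j < LL N, β (k + LL N + j) = W2.testBit (LL N - 1 - j))
    (hb3 : ∀ j < LL N, β (k + LL N + LL N + j) = W3.testBit (LL N - 1 - j)) :
    ∃ s' t, Run point s s' t ∧ t ≤ LL N * 90 + 200 ∧ s'.r 6 = s.r 6 - 1 ∧
      s'.r 1 = X (k + LL N + LL N + LL N) ∧ s'.r 0 = (N : ℝ) ∧ s'.o = s.o ++ Prog.cs (LL N) W1 W2 (if W3 = 0 then 0 else 1) := by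
  obtain ⟨s1, t1, a1, a2, a3, a4, a5, a6, a7, a8⟩ := Prog.run_num hE s N k W1 h h0 hW1 hb1
  obtain ⟨s2, t2, b1, b2, b3, b4, b5, b6, b7, b8⟩ := Prog.run_num hE ⟨Function.update s1.r 7 (Prog.par.val s1.r), s1.o⟩
    N (k + LL N) W2 (by simp only; rw [Function.update_of_ne (by norm_num), a3])
    (by simp only; rw [Function.update_of_ne (by norm_num), a7, h0]) hW2 hb2
  obtain ⟨s3, t3, c1, c2, c3, c4, c5, c6, c7, c8⟩ := Prog.run_num hE ⟨Function.update s2.r 8 (Prog.par.val s2.r), s2.o⟩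
    N (k + LL N + LL N) W3 (by simp only; rw [Function.update_of_ne (by norm_num), b3])
    (by simp only; rw [Function.update_of_ne (by norm_num), b7]; simp only
        rw [Function.update_of_ne (by norm_num), a7, h0]) hW3 hb3
  have v7 : s3.r 7 = 2 * (W1 : ℝ) / 2 ^ LL N - 1 := by
    rw [c6 7 (by norm_num)]
    simp only
    rw [Function.update_of_ne (by norm_num), b6 7 (by norm_num)]
    simp only [Function.update_self, Prog.par, Ex.val]
    rw [a4, a5]
  have v8 : s3.r 8 = 2 * (W2 : ℝ) / 2 ^ LL N - 1 := by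
    rw [c6 8 (by norm_num)]
    simp only [Function.update_self, Prog.par, Ex.val]
    rw [b4, b5]
  have v6 : s3.r 6 = s.r 6 := by
    rw [c6 6 (by norm_num)]
    simp only
    rw [Function.update_of_ne (by norm_num), b6 6 (by norm_num)]
    simp only
    rw [Function.update_of_ne (by norm_num), a6 6 (by norm_num)]
  have v0 : s3.r 0 = (N : ℝ) := by
    rw [c7]
    simp only
    rw [Function.update_of_ne (by norm_num), b7]
    simp only
    rw [Function.update_of_ne (by norm_num), a7, h0]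
  have vo : s3.o = s.o := by
    rw [c8]
    show s2.o = s.o
    rw [b8]
    show s1.o = s.o
    rw [a8]
  obtain ⟨s4, t4, d1, d2, d3, d4, d5⟩ : ∃ s4 t4, Run (.ite (.reg 4) (.set 4 (.con 1)) .skip) s3 s4 t4 ∧ t4 ≤ 4 ∧
      s4.r 4 = ((if W3 = 0 then 0 else 1 : ℕ) : ℝ) ∧ (∀ i, i ≠ 4 → s4.r i = s3.r i) ∧ s4.o = s3.o := by
    by_cases hW : W3 = 0
    · refine ⟨s3, _, Run.neg ?_ (Run.skip s3), ?_, ?_, fun _ _ => rfl, rfl⟩
      · show ¬ 0 < s3.r 4
        rw [c4, hW]
        simp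
      · simp [Ex.cost]
      · rw [if_pos hW, c4, hW]
    · refine ⟨_, _, Run.pos ?_ (Run.set 4 _ s3), ?_, ?_, ?_, rfl⟩
      · show 0 < s3.r 4
        rw [c4]
        exact_mod_cast Nat.pos_of_ne_zero hW
      · simp [Ex.cost]
      · rw [if_neg hW]
        simp [Ex.val]
      · intro i hi
        simp only
        rw [Function.update_of_ne hi]
  refine ⟨_, _, Run.seq a1 (Run.seq (Run.set 7 _ _) (Run.seq b1 (Run.seq (Run.set 8 _ _) (Run.seq c1 (Run.seq d1
    (Run.seq (Run.out _ _) (Run.seq (Run.out _ _) (Run.seq (Run.out _ _) (Run.set 6 _ _))))))))), ?_, ?_, ?_, ?_, ?_⟩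
  · simp only [Ex.cost, Prog.par, Prog.den]
    omega
  · simp only [Ex.val, Function.update_self]
    rw [d4 6 (by norm_num), v6]
  · simp only
    rw [Function.update_of_ne (by norm_num), d4 1 (by norm_num), c3]
  · simp only
    rw [Function.update_of_ne (by norm_num), d4 0 (by norm_num), v0]
  · simp only [Ex.val, Prog.den, Prog.cs]
    rw [d4 7 (by norm_num), d4 8 (by norm_num), v7, v8, d3, d5, vo]
    simp only [pow_two, List.append_assoc, List.cons_append, List.nil_append]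

theorem run_all {X : ℕ → ℝ} {β : ℕ → Bool} (hE : Prog.Enc X β) (N : ℕ) (hN : 2 ≤ N) (V : ℕ → ℕ)
    (v1 : ∀ i, V i < 2 ^ LL N)
    (hblk : ∀ m, m < 3 * N → ∀ j < LL N, β (48 * N ^ 5 + m * LL N + j) = (V m).testBit (LL N - 1 - j)) :
    ∃ s t, Run (prog (X 0)) (start N) s t ∧ t ≤ 3000 * N ^ 5 ∧
      s.o = (List.range N).flatMap
        (fun i => Prog.cs (LL N) (V (3 * i)) (V (3 * i + 1)) (if V (3 * i + 2) = 0 then 0 else 1)) := by
  -- the run
  obtain ⟨s2, t2, a1, a2, a3, a4, a5, a6⟩ := Prog.run_skp hE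
    ⟨Function.update (Function.update (start N).r 1 (X 0)) 2 ((48 * N ^ 5 : ℕ) : ℝ), (start N).o⟩ (48 * N ^ 5)
    (by simp only; rw [Function.update_of_ne (by norm_num), Function.update_self])
    (by simp only [Function.update_self])
  obtain ⟨s3, t3, b1, b2, b3⟩ := Prog.count 6 point N (LL N * 90 + 200)
    (fun i s' => s'.r 1 = X (48 * N ^ 5 + (3 * i) * LL N) ∧ s'.r 0 = (N : ℝ) ∧
      s'.o = (List.range i).flatMap (fun i => Prog.cs (LL N) (V (3 * i)) (V (3 * i + 1)) (if V (3 * i + 2) = 0 then 0 else 1)))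
    (by
      intro j m s hjm hc ⟨c1, c2, c3⟩
      obtain ⟨s', t, d1, d2, d3, d4, d5, d6⟩ := run_point hE s N (48 * N ^ 5 + (3 * j) * LL N) (V (3 * j))
        (V (3 * j + 1)) (V (3 * j + 2)) c1 c2 (v1 _) (v1 _) (v1 _) (hblk (3 * j) (by omega))
        (by
          intro i hi
          rw [← hblk (3 * j + 1) (by omega) i hi]
          congr 1
          ring)
        (by
          intro i hi
          rw [← hblk (3 * j + 2) (by omega) i hi]
          congr 1
          ring)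
      refine ⟨s', t, d1, d2, ?_, ?_, d5, ?_⟩
      · rw [d3, hc]
        push_cast
        ring
      · rw [d4]
        congr 1
        ring
      · rw [d6, c3, List.range_succ, List.flatMap_append, List.flatMap_singleton])
    N 0 ⟨Function.update s2.r 6 (N : ℝ), s2.o⟩ (by omega)
    (by simp only [Function.update_self])
    ⟨by
      simp only
      rw [Function.update_of_ne (by norm_num), a3]
      simp,
    by
      simp only
      rw [Function.update_of_ne (by norm_num), a5]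
      simp [start],
    by
      show s2.o = _
      rw [a6]
      simp [start]⟩
  have hs2 : s2.r 0 = (N : ℝ) := by
    rw [a5]
    simp [start]
  have r1 := Run.set 1 (Ex.con (X 0)) (start N)
  have r2 := Run.set 2 (.mul (.con 48) (.mul (.reg 0) (.mul (.reg 0) (.mul (.reg 0) (.mul (.reg 0) (.reg 0))))))
    ⟨Function.update (start N).r 1 (X 0), (start N).o⟩
  have e2 : (Ex.mul (.con 48) (.mul (.reg 0) (.mul (.reg 0) (.mul (.reg 0) (.mul (.reg 0) (.reg 0)))))).val
      (Function.update (start N).r 1 (X 0)) = ((48 * N ^ 5 : ℕ) : ℝ) := by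
    have : Function.update (start N).r 1 (X 0) 0 = (N : ℝ) := by
      rw [Function.update_of_ne (by norm_num)]
      simp [start]
    simp only [Ex.val, this]
    push_cast
    ring
  simp only at r2
  rw [e2] at r2
  have r3 := Run.set 6 (Ex.reg 0) s2
  have e3 : (Ex.reg 0).val s2.r = (N : ℝ) := hs2
  rw [e3] at r3
  refine ⟨s3, _, Run.seq r1 (Run.seq r2 (Run.seq a1 (Run.seq r3 b1))), ?_, b3.2.2⟩
  simp only [Ex.cost]
  have hN1 : 1 ≤ N := by omega
  have p1 : N ≤ N ^ 5 := Nat.le_self_pow (by norm_num) N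
  have p2 : N ^ 4 ≤ N ^ 5 := Nat.pow_le_pow_right hN1 (by norm_num)
  have p3 : 1 ≤ N ^ 5 := Nat.one_le_pow _ _ hN1
  have p4 : N * (LL N * 90 + 200 + 2) + 2 = 1440 * N ^ 4 + 202 * N + 2 := by
    unfold LL
    ring
  omega

end Pool.Agent.H87.SM.Prog2
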