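import Pool.Agent.H87.SM.Defs

/-! SM-RND: rounding to `L` bits -/

set_option autoImplicit false

namespace Pool.Agent.H87.SM

/-- rounding to `L` bits -/
theorem rnd : S_RND := by
  intro u L hu
  obtain ⟨h1, h2⟩ := abs_le.1 hu
  have hP : (0 : ℝ) < 2 ^ L := by positivity
  have hPn : 1 ≤ 2 ^ L := Nat.one_le_two_pow
  set t : ℝ := (u + 1) / 2 * 2 ^ L with ht
  have ht0 : 0 ≤ t := by
    rw [ht]
    exact mul_nonneg (by linarith) hP.le
  have ht1 : t ≤ 2 ^ L := by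
    rw [ht]
    nlinarith
  have key : ∃ a : ℕ, a < 2 ^ L ∧ |(a : ℝ) - t| ≤ 1 := by
    by_cases h : ⌊t⌋₊ < 2 ^ L
    · refine ⟨⌊t⌋₊, h, ?_⟩
      have h3 := Nat.floor_le ht0
      have h4 := Nat.lt_floor_add_one t
      rw [abs_le]
      constructor <;> linarith
    · rw [not_lt] at h
      have h3 : ((2 ^ L : ℕ) : ℝ) ≤ t := (Nat.cast_le.2 h).trans (Nat.floor_le ht0)
      push_cast at h3
      have h4 : t = 2 ^ L := le_antisymm ht1 h3
      refine ⟨2 ^ L - 1, by omega, ?_⟩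
      rw [Nat.cast_sub hPn, h4]
      push_cast
      rw [abs_le]
      constructor <;> linarith
  obtain ⟨a, ha, hat⟩ := key
  refine ⟨a, ha, ?_⟩
  have h5 : 2 * (a : ℝ) / 2 ^ L - 1 - u = 2 / 2 ^ L * ((a : ℝ) - t) := by
    rw [ht]
    field_simp
    ring
  rw [h5, abs_mul, abs_of_pos (by positivity : (0 : ℝ) < 2 / 2 ^ L)]
  calc 2 / 2 ^ L * |(a : ℝ) - t| ≤ 2 / 2 ^ L * 1 := mul_le_mul_of_nonneg_left hat (by positivity)
    _ = 2 / 2 ^ L := mul_one _

end Pool.Agent.H87.SM
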