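import Pool.Agent.H87.SM.Defs

/-! # SM-SEP (helper63): lower bound of the energy, separation -/

set_option autoImplicit false

namespace Pool.Agent.H87.SM

namespace SEPx

/-- the term of a pair -/
noncomputable def tm {N : ℕ} (ω : Fin N → E3) (x : Fin N × Fin N) : ℝ :=
  if x.1 ≠ x.2 then Real.log ‖ω x.1 - ω x.2‖ else 0

lemma energy_eq {N : ℕ} (ω : Fin N → E3) : energy ω = - ∑ x, tm ω x := by
  unfold energy tm
  rw [Fintype.sum_prod_type]

lemma dist_pos {N : ℕ} {ω : Fin N → E3} (h : Conf ω) {i j : Fin N} (hij : i ≠ j) :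
    0 < ‖ω i - ω j‖ := by
  rw [norm_pos_iff, sub_ne_zero]
  exact fun he => hij (h.1 he)

lemma tm_le {N : ℕ} {ω : Fin N → E3} (h : Conf ω) (x : Fin N × Fin N) : tm ω x ≤ 1 := by
  unfold tm
  split_ifs with hx
  · have h1 := dist_pos h hx
    have h2 : ‖ω x.1 - ω x.2‖ ≤ 2 := by
      have h3 := norm_sub_le (ω x.1) (ω x.2)
      rw [h.2, h.2] at h3
      linarith
    have h4 := Real.log_le_sub_one_of_pos h1
    linarith
  · exact zero_le_one

lemma sum_one (N : ℕ) : ∑ _x : Fin N × Fin N, (1 : ℝ) = (N : ℝ) ^ 2 := by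
  simp
  ring

end SEPx

open SEPx in
theorem sep : S_SEP := by
  classical
  constructor
  · intro N ω h
    rw [energy_eq, neg_le_neg_iff, ← sum_one N]
    exact Finset.sum_le_sum fun x _ => tm_le h x
  · intro N ω hN h hE i j hij
    have h1 : ∑ x ∈ ({(i, j), (j, i)} : Finset (Fin N × Fin N)), (1 - tm ω x) ≤
        ∑ x, (1 - tm ω x) :=
      Finset.sum_le_sum_of_subset_of_nonneg (Finset.subset_univ _)
        (fun x _ _ => by have := tm_le h x; linarith)
    have hne : ((i, j) : Fin N × Fin N) ≠ (j, i) := by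
      intro he
      exact hij (congrArg Prod.fst he)
    rw [Finset.sum_pair hne, Finset.sum_sub_distrib, sum_one] at h1
    have e1 : tm ω (i, j) = Real.log ‖ω i - ω j‖ := by
      unfold tm
      exact if_pos hij
    have e2 : tm ω (j, i) = Real.log ‖ω i - ω j‖ := by
      unfold tm
      rw [if_pos (Ne.symm hij), norm_sub_rev]
    rw [energy_eq] at hE
    rw [e1, e2] at h1
    have hd := dist_pos h hij
    have hN2 : (2 : ℝ) ≤ N := by exact_mod_cast hN
    have h3 : -((N : ℝ) ^ 3) ≤ Real.log ‖ω i - ω j‖ := by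
      have h4 : (N : ℝ) ^ 2 ≤ (N : ℝ) ^ 3 := by nlinarith [sq_nonneg (N : ℝ)]
      linarith
    have h5 : Real.log (1 / 4 ^ (N ^ 3)) ≤ -((N : ℝ) ^ 3) := by
      rw [one_div, Real.log_inv, Real.log_pow, neg_le_neg_iff]
      have h6 : (1 : ℝ) ≤ Real.log 4 := by
        rw [Real.le_log_iff_exp_le (by norm_num)]
        have := Real.exp_one_lt_d9
        linarith
      push_cast
      exact le_mul_of_one_le_right (by positivity) h6
    exact (Real.log_le_log_iff (by positivity) hd).1 (h5.trans h3)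

end Pool.Agent.H87.SM
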