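import Pool.Agent.H87.SM.Defs

/-! # SM-UP: a configuration of energy at most `N ^ 3` (helper92) -/

set_option autoImplicit false

namespace Pool.Agent.H87.SM

namespace UP

/-- the configuration -/
noncomputable def cf (N : ℕ) (i : Fin N) : E3 := pt ((i : ℕ) / (N : ℝ)) 0 1

theorem dist_ge (hG : S_GEO) {N : ℕ} (hN : 1 ≤ N) {i j : Fin N} (hij : i ≠ j) :
    1 / (N : ℝ) ≤ ‖cf N i - cf N j‖ := by
  have hN0 : (0 : ℝ) < N := by exact_mod_cast hN
  have h1 : ∀ k : Fin N, 0 ≤ ((k : ℕ) : ℝ) / N ∧ ((k : ℕ) : ℝ) / N ≤ 1 := fun k => by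
    refine ⟨by positivity, ?_⟩
    rw [div_le_one hN0]
    exact_mod_cast k.2.le
  have h2 := hG.2.1 ((i : ℕ) / (N : ℝ)) 0 ((j : ℕ) / (N : ℝ)) 0 1 (Or.inl rfl)
  obtain ⟨a0, a1⟩ := h1 i
  obtain ⟨b0, b1⟩ := h1 j
  have h3 : (1 / (N : ℝ)) ^ 2 ≤ (((i : ℕ) : ℝ) / N - ((j : ℕ) : ℝ) / N) ^ 2 := by
    have h4 : (1 : ℝ) ≤ (((i : ℕ) : ℝ) - ((j : ℕ) : ℝ)) ^ 2 := by
      have h5 : ((i : ℕ) : ℤ) - ((j : ℕ) : ℤ) ≠ 0 := by
        intro h
        exact hij (Fin.ext (by omega))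
      have h6 : (1 : ℤ) ≤ (((i : ℕ) : ℤ) - ((j : ℕ) : ℤ)) ^ 2 := by
        have := sq_pos_of_ne_zero h5
        omega
      exact_mod_cast h6
    rw [← sub_div, div_pow, div_pow, one_pow]
    exact div_le_div_of_nonneg_right h4 (by positivity)
  have h7 : (((i : ℕ) : ℝ) / N - ((j : ℕ) : ℝ) / N) ^ 2 ≤ ‖cf N i - cf N j‖ ^ 2 := by
    unfold cf
    rw [h2, le_div_iff₀ (by positivity)]
    have h8 : (1 + (((i : ℕ) : ℝ) / N) ^ 2 + 0 ^ 2) * (1 + (((j : ℕ) : ℝ) / N) ^ 2 + 0 ^ 2) ≤ 4 := by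
      have c1 : (((i : ℕ) : ℝ) / N) ^ 2 ≤ 1 := pow_le_one₀ a0 a1
      have c2 : (((j : ℕ) : ℝ) / N) ^ 2 ≤ 1 := pow_le_one₀ b0 b1
      have c3 : 0 ≤ (((i : ℕ) : ℝ) / N) ^ 2 := sq_nonneg _
      have c4 : 0 ≤ (((j : ℕ) : ℝ) / N) ^ 2 := sq_nonneg _
      nlinarith
    have h9 := mul_le_mul_of_nonneg_left h8 (sq_nonneg (((i : ℕ) : ℝ) / N - ((j : ℕ) : ℝ) / N))
    linarith
  exact le_of_sq_le_sq (h3.trans h7) (norm_nonneg _)
where
  le_of_sq_le_sq {a b : ℝ} (h : a ^ 2 ≤ b ^ 2) (hb : 0 ≤ b) : a ≤ b := by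
    by_contra hcon
    push Not at hcon
    nlinarith

end UP

theorem up : S_UP := by
  intro hG N hN
  have hN0 : (0 : ℝ) < N := by exact_mod_cast hN
  refine ⟨UP.cf N, ⟨fun i j h => ?_, fun i => hG.1 _ _ _ (Or.inl rfl)⟩, ?_⟩
  · by_contra hij
    have h1 := UP.dist_ge hG hN hij
    rw [h, sub_self, norm_zero] at h1
    have : 0 < 1 / (N : ℝ) := by positivity
    linarith
  · unfold energy
    rw [← Finset.sum_neg_distrib]
    have h1 : ∀ i : Fin N, -∑ j, (if i ≠ j then Real.log ‖UP.cf N i - UP.cf N j‖ else 0) ≤ (N : ℝ) * N := by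
      intro i
      rw [← Finset.sum_neg_distrib]
      have h2 : ∀ j : Fin N, -(if i ≠ j then Real.log ‖UP.cf N i - UP.cf N j‖ else 0) ≤ (N : ℝ) := by
        intro j
        split_ifs with h
        · have h3 := UP.dist_ge hG hN h
          have h4 : Real.log (1 / N) ≤ Real.log ‖UP.cf N i - UP.cf N j‖ := Real.log_le_log (by positivity) h3
          rw [one_div, Real.log_inv] at h4
          have h5 := Real.log_le_sub_one_of_pos hN0
          linarith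
        · simp
      refine (Finset.sum_le_sum fun j _ => h2 j).trans (le_of_eq ?_)
      rw [Finset.sum_const, Finset.card_univ, Fintype.card_fin, nsmul_eq_mul]
    refine (Finset.sum_le_sum fun i _ => h1 i).trans (le_of_eq ?_)
    rw [Finset.sum_const, Finset.card_univ, Fintype.card_fin, nsmul_eq_mul]
    ring

end Pool.Agent.H87.SM
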